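import Pool.Agent.TH275.KL.Rolle

/-! The zeros of a polynomial in `[-1, 1]` from lower bounds at logarithmically many points. -/

open Set MeasureTheory Topology Filter Polynomial

namespace Pool.Agent.TH275.KL

noncomputable section

open Pool.Agent.TH275.RF (spoly eval_spoly)

/-- the nodes -/
def cn (n k : ℕ) : ℝ := (1 + 1 / n) * (1 - (2 / 3) ^ k)

/-- the number of nodes -/
def Kn (n : ℕ) : ℕ := 2 * (Nat.log 2 (n + 1) + 1)

lemma cn_zero (n : ℕ) : cn n 0 = 0 := by simp [cn]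

lemma cn_nonneg (n k : ℕ) : 0 ≤ cn n k := by
  unfold cn
  have h1 : ((2:ℝ) / 3) ^ k ≤ 1 := pow_le_one₀ (by norm_num) (by norm_num)
  have h2 : (0:ℝ) ≤ 1 / n := by positivity
  exact mul_nonneg (by linarith) (by linarith)

lemma cn_succ (n k : ℕ) : cn n (k + 1) + 2 * (cn n (k + 1) - cn n k) = 1 + 1 / n := by
  unfold cn
  rw [pow_succ]
  ring

lemma cn_mono (n k : ℕ) : cn n k ≤ cn n (k + 1) := by
  unfold cn
  have h1 : ((2:ℝ) / 3) ^ (k + 1) ≤ (2 / 3) ^ k := pow_le_pow_of_le_one (by norm_num) (by norm_num) (by omega)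
  have h2 : (0:ℝ) ≤ 1 / n := by positivity
  exact mul_le_mul_of_nonneg_left (by linarith) (by linarith)

lemma one_le_cn {n : ℕ} (hn : 1 ≤ n) : 1 ≤ cn n (Kn n) := by
  have hn0 : (0:ℝ) < n := by exact_mod_cast hn
  set j := Nat.log 2 (n + 1) + 1 with hj
  have h1 : n + 1 < 2 ^ j := Nat.lt_pow_succ_log_self (by norm_num) _
  have h2 : ((n:ℝ) + 1) ≤ 2 ^ j := by exact_mod_cast h1.le
  have h3 : ((2:ℝ) / 3) ^ Kn n ≤ 1 / (n + 1) := by
    have e : ((2:ℝ) / 3) ^ Kn n = (4 / 9) ^ j := by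
      unfold Kn
      rw [← hj, pow_mul]; norm_num
    rw [e]
    calc ((4:ℝ) / 9) ^ j ≤ (1 / 2) ^ j := pow_le_pow_left₀ (by norm_num) (by norm_num) _
      _ = 1 / 2 ^ j := by rw [one_div, one_div, inv_pow]
      _ ≤ 1 / (n + 1) := by gcongr
  unfold cn
  calc (1:ℝ) = (1 + 1 / n) * (1 - 1 / (n + 1)) := by field_simp; ring
    _ ≤ _ := by gcongr

lemma exists_cell {n : ℕ} (hn : 1 ≤ n) {x : ℝ} (h0 : 0 ≤ x) (h1 : x ≤ 1) :
    ∃ k < Kn n, cn n k ≤ 1 ∧ x ∈ Icc (cn n k) (cn n (k + 1)) := by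
  classical
  have hK : Kn n - 1 + 1 = Kn n := by unfold Kn; omega
  have hex : ∃ k, x ≤ cn n (k + 1) := ⟨Kn n - 1, by rw [hK]; exact h1.trans (one_le_cn hn)⟩
  have hs := Nat.find_spec hex
  have hm := fun j => Nat.find_min hex (m := j)
  have hle : Nat.find hex ≤ Kn n - 1 := Nat.find_min' hex (by rw [hK]; exact h1.trans (one_le_cn hn))
  set k := Nat.find hex with hk
  have hkx : cn n k ≤ x := by
    rcases Nat.eq_zero_or_pos k with h | h
    · rw [h, cn_zero]; exact h0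
    · obtain ⟨j, hj⟩ := Nat.exists_eq_add_of_le' h
      have := hm j (by omega)
      rw [not_le, ← hj] at this
      exact this.le
  exact ⟨k, by omega, hkx.trans h1, hkx, hs⟩

/-- `± 1` -/
def sgn (s : Bool) : ℝ := if s then 1 else -1

lemma sgn_sq (s : Bool) : sgn s * sgn s = 1 := by cases s <;> simp [sgn]

lemma abs_sgn (s : Bool) : |sgn s| = 1 := by cases s <;> simp [sgn]

variable {S : Finset (ℕ × ℕ)} {n : ℕ}

/-- **The zeros in `[-1, 1]`.** -/
theorem zeros_le (hn : 1 ≤ n) (e : S → ℕ) (he : ∀ m, e m ≤ n) (f : S → ℝ) {t : ℝ} (ht : 0 < t)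
    (hl : ∀ (s : Bool), ∀ k < Kn n, cn n k ≤ 1 → ∃ r : ℕ, r ≤ 2 ∧
      t ≤ |∑ m : S, f m * (e m).descFactorial r * (sgn s * cn n k) ^ (e m - r)|)
    {B : ℕ} (hB : 12 * (n ^ 2 * ∑ m, |f m|) < 2 ^ (B + 1) * t) :
    {x : ℝ | x ∈ Icc (-1) 1 ∧ ∑ m : S, f m * x ^ e m = 0}.encard ≤ ((2 * Kn n * B : ℕ) : ℕ∞) := by
  classical
  have hn1 : (1:ℝ) ≤ n := by exact_mod_cast hn
  have hf0 : 0 ≤ ∑ m, |f m| := Finset.sum_nonneg fun _ _ => abs_nonneg _
  -- one cell
  have hcell : ∀ (s : Bool), ∀ k < Kn n, cn n k ≤ 1 → ∀ F : Finset ℝ,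
      (∀ x ∈ F, sgn s * x ∈ Icc (cn n k) (cn n (k + 1)) ∧ ∑ m : S, f m * x ^ e m = 0) →
      F.card ≤ B := by
    intro s k hk hk1 F hF
    obtain ⟨r, hr, hrt⟩ := hl s k hk hk1
    have hmon := cn_mono n k
    have hsucc := cn_succ n k
    have h0 := cn_nonneg n k
    -- the interval
    obtain ⟨a, b, hba, hmem, hab⟩ : ∃ a b : ℝ, sgn s * cn n k ∈ Icc a b ∧
        (∀ x, sgn s * x ∈ Icc (cn n k) (cn n (k + 1)) → x ∈ Icc a b) ∧
        ∀ ξ ∈ Icc a b, |ξ| + 2 * (b - a) ≤ 1 + 1 / n := by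
      cases s
      · refine ⟨-cn n (k + 1), -cn n k, ?_, ?_, ?_⟩
        · simp only [sgn, Bool.false_eq_true, if_false, mem_Icc]
          constructor <;> linarith
        · intro x hx
          simp only [sgn, Bool.false_eq_true, if_false, mem_Icc] at hx ⊢
          constructor <;> linarith [hx.1, hx.2]
        · intro ξ hξ
          rw [mem_Icc] at hξ
          have : |ξ| ≤ cn n (k + 1) := by rw [abs_le]; constructor <;> linarith [hξ.1, hξ.2]
          linarith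
      · refine ⟨cn n k, cn n (k + 1), ?_, ?_, ?_⟩
        · simp only [sgn, if_true, mem_Icc]
          constructor <;> linarith
        · intro x hx
          simp only [sgn, if_true, mem_Icc] at hx ⊢
          constructor <;> linarith [hx.1, hx.2]
        · intro ξ hξ
          rw [mem_Icc] at hξ
          have : |ξ| ≤ cn n (k + 1) := by rw [abs_le]; constructor <;> linarith [hξ.1, hξ.2]
          linarith
    have h1 := small_iter hn e he f hab (Z := F) (fun z hz => ⟨hmem z (hF z hz).1, by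
      rw [eval_spoly]; exact (hF z hz).2⟩) hba r
    by_contra hcon
    rw [not_le] at hcon
    have h2 : (2:ℝ) ^ (B + 1) ≤ 2 ^ F.card := pow_le_pow_right₀ one_le_two hcon
    have h3 : (2:ℝ) ^ r * (3 * (n ^ r * ∑ m, |f m|)) ≤ 2 ^ 2 * (3 * (n ^ 2 * ∑ m, |f m|)) := by
      have a1 : (2:ℝ) ^ r ≤ 2 ^ 2 := pow_le_pow_right₀ one_le_two hr
      have a2 : (n:ℝ) ^ r ≤ n ^ 2 := pow_le_pow_right₀ hn1 hr
      exact mul_le_mul a1 (mul_le_mul_of_nonneg_left (mul_le_mul_of_nonneg_right a2 hf0)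
        (by norm_num)) (by positivity) (by norm_num)
    have h4 : (2:ℝ) ^ (B + 1) * t ≤ 2 ^ F.card *
        |∑ m : S, f m * (e m).descFactorial r * (sgn s * cn n k) ^ (e m - r)| := by gcongr
    have h5 : (2:ℝ) ^ 2 * (3 * (n ^ 2 * ∑ m, |f m|)) = 12 * (n ^ 2 * ∑ m, |f m|) := by ring
    linarith
  by_contra hcon
  rw [not_le] at hcon
  have hcon' : ((2 * Kn n * B + 1 : ℕ) : ℕ∞) ≤
      {x : ℝ | x ∈ Icc (-1) 1 ∧ ∑ m : S, f m * x ^ e m = 0}.encard := by
    have := Order.add_one_le_of_lt hcon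
    push_cast at this ⊢
    exact this
  obtain ⟨F', hF', hc⟩ := Set.exists_subset_encard_eq hcon'
  have hfin : F'.Finite := finite_of_encard_eq_coe hc
  lift F' to Finset ℝ using hfin
  rw [encard_coe_eq_coe_finsetCard] at hc
  have hc' : F'.card = 2 * Kn n * B + 1 := by exact_mod_cast hc
  set I : Finset (Bool × ℕ) := Finset.univ ×ˢ Finset.range (Kn n) with hI
  have hsub : F' ⊆ I.biUnion fun q => F'.filter fun x => cn n q.2 ≤ 1 ∧
      sgn q.1 * x ∈ Icc (cn n q.2) (cn n (q.2 + 1)) := by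
    intro x hx
    obtain ⟨⟨hx1, hx2⟩, -⟩ := hF' hx
    rw [Finset.mem_biUnion]
    rcases le_total 0 x with h | h
    · obtain ⟨k, hk, hk1, hk2⟩ := exists_cell hn h hx2
      exact ⟨(true, k), Finset.mk_mem_product (Finset.mem_univ _) (Finset.mem_range.2 hk),
        Finset.mem_filter.2 ⟨hx, hk1, by simpa [sgn] using hk2⟩⟩
    · obtain ⟨k, hk, hk1, hk2⟩ := exists_cell hn (x := -x) (by linarith) (by linarith)
      exact ⟨(false, k), Finset.mk_mem_product (Finset.mem_univ _) (Finset.mem_range.2 hk),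
        Finset.mem_filter.2 ⟨hx, hk1, by simpa [sgn] using hk2⟩⟩
  have h1 := (Finset.card_le_card hsub).trans (Finset.card_biUnion_le_card_mul _ _ B (by
    intro q hq
    rw [hI, Finset.mem_product, Finset.mem_range] at hq
    by_cases h : cn n q.2 ≤ 1
    · refine hcell q.1 q.2 hq.2 h _ fun x hx => ?_
      rw [Finset.mem_filter] at hx
      exact ⟨hx.2.2, (hF' hx.1).2⟩
    · have : (F'.filter fun x => cn n q.2 ≤ 1 ∧
          sgn q.1 * x ∈ Icc (cn n q.2) (cn n (q.2 + 1))) = ∅ := by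
        rw [Finset.filter_eq_empty_iff]
        rintro x - ⟨h', -⟩
        exact h h'
      rw [this]
      simp))
  rw [hI, Finset.card_product, Finset.card_univ, Fintype.card_bool, Finset.card_range] at h1
  omega

end

end Pool.Agent.TH275.KL
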