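import Pool.Agent.TH275.KL.Node
import Pool.Agent.W960.HR.Exp2
import Pool.Agent.TH275.RF.DetX

/-! The eight families of lines and the number of zeros along the lines parallel to the axes. -/

open Set MeasureTheory Topology Filter
open scoped ENNReal

namespace Pool.Agent.TH275.KL

noncomputable section

open Pool.Agent.H709R2 (fld)
open Pool.Agent.TH275.RF (ip AX comb_fld)
open Pool.Agent.TH275.LF (LineZ)
open Pool.Agent.W960.HR (Dens lin Full)

variable {S : Finset (ℕ × ℕ)} {n : ℕ} {M N t : ℝ}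

/-- the exponent of the variable on the line -/
def ix (h : Bool) (m : S) : ℕ := if h then m.1.1 else m.1.2

/-- the exponent of the other variable -/
def iy (h : Bool) (m : S) : ℕ := if h then m.1.2 else m.1.1

/-- exponents in the eight charts -/
def ef (n : ℕ) (h a b : Bool) (m : S) : ℕ × ℕ :=
  (if a then n - ix h m else ix h m, if b then n - ix h m - iy h m else iy h m)

/-- the exponents which are used in the charts -/
structure Full2 (n : ℕ) (S : Finset (ℕ × ℕ)) : Prop extends Full n S where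
  h20 : (2, 0) ∈ S
  h02 : (0, 2) ∈ S
  k20 : (n - 2, 0) ∈ S
  k22 : (n - 2, 2) ∈ S
  l20 : (0, n - 2) ∈ S
  l22 : (2, n - 2) ∈ S

lemma Full2.two_le (h : Full2 n S) : 2 ≤ n := by
  have := h.deg _ h.h20
  simpa using this

lemma ix_add_iy (hS : ∀ m ∈ S, m.1 + m.2 ≤ n) (h : Bool) (m : S) : ix h m + iy h m ≤ n := by
  have := hS m.1 m.2
  cases h
  · simp only [ix, iy, Bool.false_eq_true, if_false]; omega
  · simp only [ix, iy, if_true]; omega

lemma ef_le (hS : ∀ m ∈ S, m.1 + m.2 ≤ n) (h a b : Bool) (m : S) :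
    (ef n h a b m).1 ≤ n ∧ (ef n h a b m).2 ≤ n := by
  have := ix_add_iy hS h m
  unfold ef
  constructor
  · dsimp only; split_ifs <;> omega
  · dsimp only; split_ifs <;> omega

lemma exists_ef (hF : Full2 n S) (h a b : Bool) {r : ℕ} (hr : r ≤ 2) :
    ∃ m : S, ef n h a b m = (r, 0) := by
  have h2 := hF.two_le
  have key : ∀ (i j : ℕ), (i, j) ∈ S → (if a then n - i else i) = r →
      (if b then n - i - j else j) = 0 → h = true → ∃ m : S, ef n h a b m = (r, 0) := by
    rintro i j hij h3 h4 rfl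
    refine ⟨⟨(i, j), hij⟩, ?_⟩
    simp only [ef, ix, iy, if_true]
    rw [h3, h4]
  have key' : ∀ (i j : ℕ), (j, i) ∈ S → (if a then n - i else i) = r →
      (if b then n - i - j else j) = 0 → h = false → ∃ m : S, ef n h a b m = (r, 0) := by
    rintro i j hij h3 h4 rfl
    refine ⟨⟨(j, i), hij⟩, ?_⟩
    simp only [ef, ix, iy, Bool.false_eq_true, if_false]
    rw [h3, h4]
  have hn0 := hF.hn0
  have hn1 := hF.hn1
  have hn2 := hF.hn2
  have h0n := hF.h0n
  have h1n := hF.h1n
  have h2n := hF.h2n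
  cases h <;> cases a <;> cases b <;> interval_cases r
  · exact key' 0 0 hF.h00 (by simp) (by simp) rfl
  · exact key' 1 0 hF.h01 (by simp) (by simp) rfl
  · exact key' 2 0 hF.h02 (by simp) (by simp) rfl
  · exact key' 0 n hF.hn0 (by simp) (by simp) rfl
  · exact key' 1 (n - 1) hF.hn2 (by simp) (by simp) rfl
  · exact key' 2 (n - 2) hF.k22 (by simp) (by simp) rfl
  · exact key' n 0 hF.h0n (by simp) (by simp) rfl
  · exact key' (n - 1) 0 hF.h1n (by simp; omega) (by simp) rfl
  · exact key' (n - 2) 0 hF.l20 (by simp; omega) (by simp) rfl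
  · exact key' n 0 hF.h0n (by simp) (by simp) rfl
  · exact key' (n - 1) 1 hF.h2n (by simp; omega) (by simp; omega) rfl
  · exact key' (n - 2) 2 hF.l22 (by simp; omega) (by simp; omega) rfl
  · exact key 0 0 hF.h00 (by simp) (by simp) rfl
  · exact key 1 0 hF.h10 (by simp) (by simp) rfl
  · exact key 2 0 hF.h20 (by simp) (by simp) rfl
  · exact key 0 n hF.h0n (by simp) (by simp) rfl
  · exact key 1 (n - 1) hF.h2n (by simp) (by simp) rfl
  · exact key 2 (n - 2) hF.l22 (by simp) (by simp) rfl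
  · exact key n 0 hF.hn0 (by simp) (by simp) rfl
  · exact key (n - 1) 0 hF.hn1 (by simp; omega) (by simp) rfl
  · exact key (n - 2) 0 hF.k20 (by simp; omega) (by simp) rfl
  · exact key n 0 hF.hn0 (by simp) (by simp) rfl
  · exact key (n - 1) 1 hF.hn2 (by simp; omega) (by simp; omega) rfl
  · exact key (n - 2) 2 hF.k22 (by simp; omega) (by simp; omega) rfl

/-- lower bounds for all families -/
def Ls (n : ℕ) (c : S → ℝ × ℝ) (t : ℝ) : Prop := ∀ h a b : Bool, Lc n (ef n h a b) c t

/-- the zeros in `[-1, 1]` for a family -/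
lemma zeros_fam (hn : 1 ≤ n) {e : S → ℕ × ℕ} (he : ∀ m, (e m).1 ≤ n)
    (hN : (S.card : ℝ) ≤ N) {c : S → ℝ × ℝ} (hM : ∀ m, ‖c m‖ ≤ M) (hM0 : 0 ≤ M) (ht : 0 < t)
    (hLc : Lc n e c t) {w : ℝ} (hw : |w| ≤ 1) {σ : ℝ} (hσ : |σ| ≤ 1) (d : Bool) {B : ℕ}
    (hB : 24 * (n ^ 2 * (N * M)) < 2 ^ (B + 1) * t) :
    {x : ℝ | x ∈ Icc (-1) 1 ∧ ∑ m : S, ip (dir d σ) (c m) * w ^ (e m).2 * x ^ (e m).1 = 0}.encard ≤
      ((2 * Kn n * B : ℕ) : ℕ∞) := by
  refine zeros_le hn (fun m => (e m).1) he (fun m => ip (dir d σ) (c m) * w ^ (e m).2) ht ?_ ?_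
  · intro s k hk hk1
    obtain ⟨r, hr, h⟩ := hLc s k hk hk1 d w σ hw hσ
    refine ⟨r, hr, h.trans (le_of_eq ?_)⟩
    congr 1
    unfold lin ip
    rw [Prod.fst_sum, Prod.snd_sum, Finset.mul_sum, Finset.mul_sum, ← Finset.sum_add_distrib]
    refine Finset.sum_congr rfl fun m _ => ?_
    simp only [Prod.smul_fst, Prod.smul_snd, smul_eq_mul, wr]
    ring
  · refine lt_of_le_of_lt ?_ hB
    have h1 : ∑ m : S, |ip (dir d σ) (c m) * w ^ (e m).2| ≤ N * (2 * M) := by
      calc ∑ m : S, |ip (dir d σ) (c m) * w ^ (e m).2| ≤ ∑ _m : S, 2 * M := by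
            refine Finset.sum_le_sum fun m _ => ?_
            rw [abs_mul, abs_pow]
            have a1 : |ip (dir d σ) (c m)| ≤ 2 * (1 * M) := (abs_ip_le _ _).trans (by
              have := mul_le_mul (norm_dir d hσ) (hM m) (norm_nonneg _) zero_le_one
              linarith)
            have a2 : |w| ^ (e m).2 ≤ 1 := pow_le_one₀ (abs_nonneg _) hw
            have a3 := mul_le_mul a1 a2 (by positivity) (by positivity)
            linarith
        _ = S.card * (2 * M) := by
            rw [Finset.sum_const, Finset.card_univ, Fintype.card_coe, nsmul_eq_mul]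
        _ ≤ N * (2 * M) := mul_le_mul_of_nonneg_right hN (by positivity)
    have h2 : (0:ℝ) ≤ n ^ 2 := by positivity
    have := mul_le_mul_of_nonneg_left h1 h2
    linarith

/-- the zeros on a line -/
lemma zeros_line (hn : 1 ≤ n) (hS : ∀ m ∈ S, m.1 + m.2 ≤ n)
    (hN : (S.card : ℝ) ≤ N) {c : S → ℝ × ℝ} (hM : ∀ m, ‖c m‖ ≤ M) (hM0 : 0 ≤ M) (ht : 0 < t)
    (hLs : Ls n c t) (h : Bool) (y : ℝ) {σ : ℝ} (hσ : |σ| ≤ 1) (d : Bool) {B : ℕ}
    (hB : 24 * (n ^ 2 * (N * M)) < 2 ^ (B + 1) * t) :
    {x : ℝ | ∑ m : S, ip (dir d σ) (c m) * (x ^ ix h m * y ^ iy h m) = 0}.encard ≤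
      ((4 * Kn n * B : ℕ) : ℕ∞) := by
  have hsum : ∀ A A' : Set ℝ, A.encard ≤ ((2 * Kn n * B : ℕ) : ℕ∞) →
      A'.encard ≤ ((2 * Kn n * B : ℕ) : ℕ∞) → ∀ φ φ' : ℝ → ℝ,
      {x : ℝ | ∑ m : S, ip (dir d σ) (c m) * (x ^ ix h m * y ^ iy h m) = 0} ⊆ φ '' A ∪ φ' '' A' →
      {x : ℝ | ∑ m : S, ip (dir d σ) (c m) * (x ^ ix h m * y ^ iy h m) = 0}.encard ≤
      ((4 * Kn n * B : ℕ) : ℕ∞) := by
    intro A A' hA hA' φ φ' hsub
    refine (encard_le_encard hsub).trans ((encard_union_le _ _).trans
      ((add_le_add ((encard_image_le _ _).trans hA) ((encard_image_le _ _).trans hA')).trans ?_))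
    rw [← Nat.cast_add]
    exact_mod_cast (by ring_nf; exact le_rfl : 2 * Kn n * B + 2 * Kn n * B ≤ 4 * Kn n * B)
  have hij := fun m : S => ix_add_iy hS h m
  rcases le_or_gt |y| 1 with hy | hy
  · have z1 := zeros_fam hn (fun m => (ef_le hS h false false m).1) hN hM hM0 ht (hLs h false false)
      hy hσ d hB
    have z2 := zeros_fam hn (fun m => (ef_le hS h true false m).1) hN hM hM0 ht (hLs h true false)
      hy hσ d hB
    refine hsum _ _ z1 z2 id (fun v => v⁻¹) ?_
    intro x hx
    rw [mem_ofPred_eq] at hx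
    rcases le_or_gt |x| 1 with hx1 | hx1
    · left
      refine ⟨x, ⟨abs_le.1 hx1, ?_⟩, rfl⟩
      rw [← hx]
      refine Finset.sum_congr rfl fun m _ => ?_
      simp only [ef, Bool.false_eq_true, if_false]
      ring
    · right
      have hx0 : x ≠ 0 := by
        intro h0; rw [h0, abs_zero] at hx1; linarith
      refine ⟨x⁻¹, ⟨abs_le.1 ?_, ?_⟩, inv_inv x⟩
      · rw [abs_inv]
        exact inv_le_one_of_one_le₀ hx1.le
      · have e1 : ∀ m : S, ip (dir d σ) (c m) * y ^ (ef n h true false m).2 *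
            x⁻¹ ^ (ef n h true false m).1 =
            (x ^ n)⁻¹ * (ip (dir d σ) (c m) * (x ^ ix h m * y ^ iy h m)) := by
          intro m
          simp only [ef, Bool.false_eq_true, if_false, if_true]
          have hm := hij m
          have e2 : x ^ n = x ^ ix h m * x ^ (n - ix h m) := by
            rw [← pow_add]; congr 1; omega
          rw [e2, inv_pow]
          field_simp
        simp only [e1]
        rw [← Finset.mul_sum, hx, mul_zero]
  · have hy0 : y ≠ 0 := by
      intro h0; rw [h0, abs_zero] at hy; linarith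
    have hw : |y⁻¹| ≤ 1 := by
      rw [abs_inv]
      exact inv_le_one_of_one_le₀ hy.le
    have z1 := zeros_fam hn (fun m => (ef_le hS h false true m).1) hN hM hM0 ht (hLs h false true)
      hw hσ d hB
    have z2 := zeros_fam hn (fun m => (ef_le hS h true true m).1) hN hM hM0 ht (hLs h true true)
      hw hσ d hB
    refine hsum _ _ z1 z2 (fun s => y * s) (fun v => y * v⁻¹) ?_
    intro x hx
    rw [mem_ofPred_eq] at hx
    rcases le_or_gt |x| |y| with hx1 | hx1
    · left
      refine ⟨x / y, ⟨abs_le.1 ?_, ?_⟩, ?_⟩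
      · rw [abs_div]
        exact div_le_one_of_le₀ hx1 (abs_nonneg _)
      · have e1 : ∀ m : S, ip (dir d σ) (c m) * y⁻¹ ^ (ef n h false true m).2 *
            (x / y) ^ (ef n h false true m).1 =
            (y ^ n)⁻¹ * (ip (dir d σ) (c m) * (x ^ ix h m * y ^ iy h m)) := by
          intro m
          simp only [ef, Bool.false_eq_true, if_false, if_true]
          have hm := hij m
          have e2 : y ^ n = y ^ ix h m * y ^ iy h m * y ^ (n - ix h m - iy h m) := by
            rw [← pow_add, ← pow_add]; congr 1; omega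
          rw [e2, inv_pow, div_pow]
          field_simp
        simp only [e1]
        rw [← Finset.mul_sum, hx, mul_zero]
      · field_simp
    · right
      have hx0 : x ≠ 0 := by
        intro h0; rw [h0, abs_zero] at hx1
        have := abs_nonneg y
        linarith
      refine ⟨y / x, ⟨abs_le.1 ?_, ?_⟩, ?_⟩
      · rw [abs_div]
        exact div_le_one_of_le₀ hx1.le (abs_nonneg _)
      · have e1 : ∀ m : S, ip (dir d σ) (c m) * y⁻¹ ^ (ef n h true true m).2 *
            (y / x) ^ (ef n h true true m).1 =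
            (x ^ n)⁻¹ * (ip (dir d σ) (c m) * (x ^ ix h m * y ^ iy h m)) := by
          intro m
          simp only [ef, if_true]
          have hm := hij m
          have e2 : x ^ n = x ^ ix h m * x ^ (n - ix h m) := by
            rw [← pow_add]; congr 1; omega
          have e3 : y ^ (n - ix h m) = y ^ iy h m * y ^ (n - ix h m - iy h m) := by
            rw [← pow_add]; congr 1; omega
          rw [e2, inv_pow, div_pow, e3]
          field_simp
        simp only [e1]
        rw [← Finset.mul_sum, hx, mul_zero]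
      · field_simp

/-- **Few zeros along the lines parallel to the axes.** -/
theorem ax_of_Ls (hn : 1 ≤ n) (hS : ∀ m ∈ S, m.1 + m.2 ≤ n)
    (hN : (S.card : ℝ) ≤ N) {c : S → ℝ × ℝ} (hM : ∀ m, ‖c m‖ ≤ M) (hM0 : 0 ≤ M) (ht : 0 < t)
    (hLs : Ls n c t) {B : ℕ} (hB : 24 * (n ^ 2 * (N * M)) < 2 ^ (B + 1) * t) :
    AX (fld c) (4 * Kn n * B) := by
  -- one line
  have key : ∀ (h : Bool) (y a b : ℝ), (a ≠ 0 ∨ b ≠ 0) →
      {x : ℝ | ∑ m : S, (a * (c m).1 + b * (c m).2) * (x ^ ix h m * y ^ iy h m) = 0}.encard ≤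
        ((4 * Kn n * B : ℕ) : ℕ∞) := by
    intro h y a b hab
    obtain ⟨d, σ, τ, hτ, hσ, ha, hb⟩ : ∃ (d : Bool) (σ τ : ℝ), τ ≠ 0 ∧ |σ| ≤ 1 ∧
        a = τ * (dir d σ).1 ∧ b = τ * (dir d σ).2 := by
      rcases le_total |b| |a| with hle | hle
      · have ha0 : a ≠ 0 := by
          intro h0
          rw [h0, abs_zero] at hle
          have hb0 : b = 0 := abs_eq_zero.1 (le_antisymm hle (abs_nonneg _))
          rcases hab with h1 | h1
          · exact h1 h0
          · exact h1 hb0
        refine ⟨true, b / a, a, ha0, ?_, ?_, ?_⟩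
        · rw [abs_div]; exact div_le_one_of_le₀ hle (abs_nonneg _)
        · simp [dir]
        · simp only [dir, if_true]; field_simp
      · have hb0 : b ≠ 0 := by
          intro h0
          rw [h0, abs_zero] at hle
          have ha0 : a = 0 := abs_eq_zero.1 (le_antisymm hle (abs_nonneg _))
          rcases hab with h1 | h1
          · exact h1 ha0
          · exact h1 h0
        refine ⟨false, a / b, b, hb0, ?_, ?_, ?_⟩
        · rw [abs_div]; exact div_le_one_of_le₀ hle (abs_nonneg _)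
        · simp only [dir, Bool.false_eq_true, if_false]; field_simp
        · simp [dir]
    have h1 := zeros_line hn hS hN hM hM0 ht hLs h y hσ d hB
    refine (encard_le_encard ?_).trans h1
    intro x hx
    rw [mem_ofPred_eq] at hx ⊢
    have e1 : ∀ m : S, (a * (c m).1 + b * (c m).2) * (x ^ ix h m * y ^ iy h m) =
        τ * (ip (dir d σ) (c m) * (x ^ ix h m * y ^ iy h m)) := by
      intro m
      rw [ha, hb]
      unfold ip
      ring
    simp only [e1] at hx
    rw [← Finset.mul_sum] at hx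
    exact (mul_eq_zero.1 hx).resolve_left hτ
  refine ⟨?_, ?_, ?_⟩
  · unfold fld
    refine ContDiff.sum fun m _ => ?_
    exact ((contDiff_fst.pow _).mul (contDiff_snd.pow _)).smul contDiff_const
  · intro y a b hab
    right
    have h1 := key true y a b hab
    have e : ∀ t : ℝ, a * (fld c (((0:ℝ), y) + t • ((1:ℝ), (0:ℝ)))).1 +
        b * (fld c (((0:ℝ), y) + t • ((1:ℝ), (0:ℝ)))).2 =
        ∑ m : S, (a * (c m).1 + b * (c m).2) * (t ^ ix true m * y ^ iy true m) := by
      intro t
      rw [comb_fld]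
      refine Finset.sum_congr rfl fun m _ => ?_
      simp only [Prod.fst_add, Prod.smul_fst, smul_eq_mul, mul_one, zero_add, Prod.snd_add,
        Prod.smul_snd, mul_zero, add_zero, ix, iy, if_true]
    simp only [e]
    exact h1
  · intro y a b hab
    right
    have h1 := key false y a b hab
    have e : ∀ t : ℝ, a * (fld c ((y, (0:ℝ)) + t • ((0:ℝ), (1:ℝ)))).1 +
        b * (fld c ((y, (0:ℝ)) + t • ((0:ℝ), (1:ℝ)))).2 =
        ∑ m : S, (a * (c m).1 + b * (c m).2) * (t ^ ix false m * y ^ iy false m) := by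
      intro t
      rw [comb_fld]
      refine Finset.sum_congr rfl fun m _ => ?_
      simp only [Prod.fst_add, Prod.smul_fst, smul_eq_mul, mul_one, zero_add, Prod.snd_add,
        Prod.smul_snd, mul_zero, add_zero, ix, iy, Bool.false_eq_true, if_false]
      ring
    simp only [e]
    exact h1

end

end Pool.Agent.TH275.KL
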