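import Pool.Agent.TH275.KL.Fam

/-! The levels. -/

open Real Set MeasureTheory Topology Filter
open scoped ENNReal

namespace Pool.Agent.TH275.KL

noncomputable section

open Pool.Agent
open Pool.Agent.H709R2 (fld rot rotc rot_fld NP measurable_NP continuous_rotc exists_poly)
open Pool.Agent.H709U
open Pool.Agent.H709Q (Maj)
open Pool.Agent.TH275.RF (ip AX ClX detX)
open Pool.Agent.W960.HR (Full NZ Good Phi Mk tk lk bk mk_ge tk_pos lk_ge bk_ge log_level card_le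
  reg_of_good det Mom Dens RotInv prob_level measurePreserving_rotc')

variable {S : Finset (ℕ × ℕ)} {n : ℕ} {M t : ℝ}

/-- the integral over the rotations for a good vector of coefficients, in terms of the number of
zeros along the lines parallel to the axes -/
theorem phi_leK (hF : Full n S) (hM1 : 1 ≤ M) (ht : 0 < t) (ht1 : t ≤ 1) {c : S → ℝ × ℝ}
    (hg : Good n c M t) {K : ℕ} (hK1 : 1 ≤ K) (hK : AX (fld c) K) :
    ∃ Z : Finset (ℝ × ℝ), Z.card ≤ n ^ 2 ∧ NZ c = (Z.card : ℝ≥0∞) ∧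
    Maj (fun α => NP (rotc α c)) (700000 * (1 + Real.log (n * M / t)) * (1 + K * Z.card)) := by
  have hn := hF.one_le
  have hn1 : (1:ℝ) ≤ n := by exact_mod_cast hn
  have hN1 : (1:ℝ) ≤ 4 * n ^ 2 := by nlinarith
  obtain ⟨P, Q, hP, hQ, hPQ⟩ := exists_poly c
  have hdeg : S.sup (fun m => m.1 + m.2) ≤ n := Finset.sup_le hF.deg
  have hreg := reg_of_good hF.deg hn (card_le hF) hN1 hM1 ht ht1 hg
  rw [← hPQ] at hreg
  set A : ℝ := 4 * n ^ 2 * (n * M) with hA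
  have hA1 : 1 ≤ A := one_le_mul_of_one_le_of_one_le hN1 (one_le_mul_of_one_le_of_one_le hn1 hM1)
  have hB : 1 ≤ 4 * (n:ℝ) ^ 2 * (n ^ 2 * M) := one_le_mul_of_one_le_of_one_le hN1
    (one_le_mul_of_one_le_of_one_le (one_le_pow₀ hn1) hM1)
  have ht2 : t ^ 2 ≤ 1 := pow_le_one₀ ht.le ht1
  have hRR : (1:ℝ) ≤ 6 * A / t := by rw [le_div_iff₀ ht]; linarith
  have hΛΛ : (1:ℝ) ≤ 96 * A ^ 2 / t ^ 2 := by rw [le_div_iff₀ (by positivity)]; nlinarith
  have hrr : 0 < t / (200 * (4 * n ^ 2 * (n ^ 2 * M))) := by positivity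
  have hrr1 : t / (200 * (4 * n ^ 2 * (n ^ 2 * M))) ≤ 1 := by
    rw [div_le_one (by positivity)]; linarith
  obtain ⟨Z, hZc, hZ, -⟩ := det hn (hP.trans hdeg) (hQ.trans hdeg) hRR hrr hrr1 hΛΛ hreg
  rw [hPQ] at hreg
  have hZ' : ∀ z, fld c z = 0 ↔ z ∈ Z := by
    intro z
    rw [← hPQ]
    exact hZ z
  have hdet := detX hK1 hK hZ' hRR hrr hrr1 hΛΛ hreg
  have hcl : ∀ α, NP (rotc α c) = ((ClX (fld c) α).encard : ℝ≥0∞) := by
    intro α
    unfold NP ClX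
    have : rf (fld c) α = fld (rotc α c) := by
      funext z
      unfold rf
      rw [rot_fld]
    rw [this]
  have hNZ : NZ c = (Z.card : ℝ≥0∞) := by
    unfold NZ
    have h1 : {z : ℝ × ℝ | fld c z = 0} = (Z : Set (ℝ × ℝ)) := by
      ext z
      rw [mem_ofPred_eq, hZ', Finset.mem_coe]
    rw [h1, Set.encard_coe_eq_coe_finsetCard]
    simp
  refine ⟨Z, hZc, hNZ, Z1aux.maj_mono (fun α _ => le_of_eq (hcl α)) ?_ hdet⟩
  set x : ℝ := n * M / t with hx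
  have hx1 : 1 ≤ x := by
    rw [hx, le_div_iff₀ ht]
    have : 1 ≤ (n:ℝ) * M := one_le_mul_of_one_le_of_one_le hn1 hM1
    linarith
  have e1 : 6 * A / t * (96 * A ^ 2 / t ^ 2) ^ 2 / (t / (200 * (4 * n ^ 2 * (n ^ 2 * M)))) =
      45298483200 * ((n:ℝ) ^ 19 * M ^ 6 / t ^ 6) := by
    rw [hA]
    field_simp
    ring
  have e2 : (n:ℝ) ^ 19 * M ^ 6 / t ^ 6 ≤ x ^ 19 := by
    rw [hx, div_pow, mul_pow]
    have h1 : M ^ 6 ≤ M ^ 19 := pow_le_pow_right₀ hM1 (by norm_num)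
    have h2 : t ^ 19 ≤ t ^ 6 := pow_le_pow_of_le_one ht.le ht1 (by norm_num)
    gcongr
  have e3 : (45298483200 : ℝ) ≤ Real.exp 25 := by
    have h1 : Real.exp 25 = Real.exp 1 ^ 25 := by rw [← Real.exp_nat_mul]; norm_num
    rw [h1]
    calc (45298483200 : ℝ) ≤ (27 / 10) ^ 25 := by norm_num
      _ ≤ Real.exp 1 ^ 25 := by
          gcongr
          linarith [Real.exp_one_gt_d9]
  have e4 : Real.log (6 * A / t * (96 * A ^ 2 / t ^ 2) ^ 2 /
      (t / (200 * (4 * n ^ 2 * (n ^ 2 * M))))) ≤ 25 + 19 * Real.log x := by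
    rw [e1]
    have h1 : 45298483200 * ((n:ℝ) ^ 19 * M ^ 6 / t ^ 6) ≤ Real.exp 25 * x ^ 19 :=
      mul_le_mul e3 e2 (by positivity) (by positivity)
    refine (Real.log_le_log (by positivity) h1).trans ?_
    rw [Real.log_mul (by positivity) (by positivity), Real.log_exp, Real.log_pow]
    push_cast
    exact le_rfl
  have hl : 0 ≤ Real.log x := Real.log_nonneg hx1
  set w : ℝ := K * (Z.card : ℝ) with hw
  have hw0 : 0 ≤ w := by positivity
  have h5 : 25000 * (1 + w * (1 + Real.log (6 * A / t * (96 * A ^ 2 / t ^ 2) ^ 2 /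
      (t / (200 * (4 * n ^ 2 * (n ^ 2 * M))))))) ≤ 25000 * (1 + w * (1 + (25 + 19 * Real.log x))) := by
    gcongr
  refine h5.trans ?_
  nlinarith [mul_nonneg hw0 hl]

/-- the lower bound along lines at level `k` -/
def uk (n : ℕ) (D W : ℝ) (k : ℕ) : ℝ :=
  1 / (10 ^ 9 * (n ^ 11 * (D ^ 3 * Mk n W k ^ 5) * lk n k))

lemma uk_pos {n : ℕ} (hn : 1 ≤ n) {D W : ℝ} (hD : 1 ≤ D) (hW : 1 ≤ W) (k : ℕ) :
    0 < uk n D W k ∧ uk n D W k ≤ 1 := by
  have hn1 : (1:ℝ) ≤ n := by exact_mod_cast hn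
  have h1 := mk_ge hn hW k
  have h2 := lk_ge hn k
  have h5 : 1 ≤ (n:ℝ) ^ 11 * (D ^ 3 * Mk n W k ^ 5) * lk n k :=
    one_le_mul_of_one_le_of_one_le (one_le_mul_of_one_le_of_one_le (one_le_pow₀ hn1)
      (one_le_mul_of_one_le_of_one_le (one_le_pow₀ hD) (one_le_pow₀ h1))) h2
  unfold uk
  refine ⟨by positivity, ?_⟩
  rw [div_le_one (by positivity)]
  linarith

lemma Kn_le {n : ℕ} (hn : 1 ≤ n) : Kn n ≤ 4 * n := by
  have h1 : Nat.log 2 (n + 1) ≤ n := by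
    apply Nat.lt_succ_iff.1
    apply Nat.log_lt_of_lt_pow (by omega)
    have : n + 1 < 2 ^ (n + 1) := Nat.lt_two_pow_self
    exact this
  unfold Kn
  omega

lemma Kn_le' {n : ℕ} (hn : 1 ≤ n) : (Kn n : ℝ) ≤ 4 + 3 * Real.log n := by
  have hn0 : (0:ℝ) < n := by exact_mod_cast hn
  have h1 : 2 ^ Nat.log 2 (n + 1) ≤ n + 1 := Nat.pow_log_le_self 2 (by omega)
  have h2 : ((2:ℝ)) ^ Nat.log 2 (n + 1) ≤ 2 * n := by
    have : ((2:ℝ)) ^ Nat.log 2 (n + 1) ≤ n + 1 := by exact_mod_cast h1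
    have hn1 : (1:ℝ) ≤ n := by exact_mod_cast hn
    linarith
  have h3 := Real.log_le_log (by positivity) h2
  rw [Real.log_pow, Real.log_mul (by norm_num) hn0.ne'] at h3
  have h4 : 0.6931471803 < Real.log 2 := Real.log_two_gt_d9
  have h5 : Real.log 2 < 0.6931471808 := Real.log_two_lt_d9
  have h6 : 0 ≤ Real.log n := Real.log_nonneg (by exact_mod_cast hn)
  set j := Nat.log 2 (n + 1) with hj
  unfold Kn
  push_cast
  rw [← hj]
  have h7 : (j:ℝ) ≤ 1 + 1.5 * Real.log n := by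
    by_contra hcon
    push Not at hcon
    have h8 : (1 + 1.5 * Real.log n) * Real.log 2 < j * Real.log 2 :=
      mul_lt_mul_of_pos_right hcon (by linarith)
    nlinarith
  linarith

/-- the bad coefficients for the lines -/
theorem prob_Ls (hF : Full2 n S) (μ : S → Measure (ℝ × ℝ)) [∀ m, IsProbabilityMeasure (μ m)]
    {D : ℝ} (hD0 : 0 ≤ D) (hD : Dens μ D) (hM1 : 1 ≤ M) (ht : 0 < t) (ht1 : t ≤ 1) :
    Measure.pi μ {c | (∀ m, ‖c m‖ ≤ M) ∧ ¬ Ls n c t} ≤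
      ENNReal.ofReal (10 ^ 9 * (n ^ 11 * (D ^ 3 * M ^ 5) * t)) := by
  have hn := hF.one_le
  have hn1 : (1:ℝ) ≤ n := by exact_mod_cast hn
  have hN1 : (1:ℝ) ≤ 4 * n ^ 2 := by nlinarith
  have hM0 : 0 ≤ M := by linarith
  set E : Bool × Bool × Bool → Set (S → ℝ × ℝ) := fun q =>
    {c | (∀ m, ‖c m‖ ≤ M) ∧ ¬ Lc n (ef n q.1 q.2.1 q.2.2) c t} with hE
  have hsub : {c : S → ℝ × ℝ | (∀ m, ‖c m‖ ≤ M) ∧ ¬ Ls n c t} ⊆
      ⋃ q ∈ (Finset.univ : Finset (Bool × Bool × Bool)), E q := by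
    rintro c ⟨hcM, hc⟩
    unfold Ls at hc
    push Not at hc
    obtain ⟨h, a, b, hab⟩ := hc
    simp only [mem_iUnion]
    exact ⟨(h, a, b), Finset.mem_univ _, hcM, hab⟩
  refine (measure_mono hsub).trans ((measure_biUnion_finset_le _ _).trans ?_)
  have hEq : ∀ q ∈ (Finset.univ : Finset (Bool × Bool × Bool)), Measure.pi μ (E q) ≤
      ENNReal.ofReal (4 * Kn n * (18432 * (D ^ 3 * M ^ 3 *
        (4 * (4 * n ^ 2 * (n ^ 3 * M))) ^ 2 * t))) := by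
    rintro ⟨h, a, b⟩ -
    obtain ⟨m₀, hm₀⟩ := exists_ef hF h a b (r := 0) (by norm_num)
    obtain ⟨m₁, hm₁⟩ := exists_ef hF h a b (r := 1) (by norm_num)
    obtain ⟨m₂, hm₂⟩ := exists_ef hF h a b (r := 2) (by norm_num)
    exact prob_Lc μ hD0 hD (fun m => (ef_le hF.deg h a b m).1) (fun m => (ef_le hF.deg h a b m).2) hn
      (card_le hF.toFull) hN1 hM1 ht ht1 hm₀ hm₁ hm₂
  refine (Finset.sum_le_card_nsmul _ _ _ hEq).trans ?_
  rw [Finset.card_univ, nsmul_eq_mul]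
  have e2 : ((Fintype.card (Bool × Bool × Bool) : ℕ) : ℝ≥0∞) = ENNReal.ofReal 8 := by
    simp
  rw [e2, ← ENNReal.ofReal_mul (by norm_num)]
  apply ENNReal.ofReal_le_ofReal
  have h1 : (Kn n : ℝ) ≤ 4 * n := by exact_mod_cast Kn_le hn
  calc 8 * (4 * (Kn n:ℝ) * (18432 * (D ^ 3 * M ^ 3 * (4 * (4 * n ^ 2 * (n ^ 3 * M))) ^ 2 * t)))
      ≤ 8 * (4 * (4 * n) * (18432 * (D ^ 3 * M ^ 3 * (4 * (4 * n ^ 2 * (n ^ 3 * M))) ^ 2 * t))) := by
        gcongr
    _ = 603979776 * (n ^ 11 * (D ^ 3 * M ^ 5) * t) := by ring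
    _ ≤ _ := by
        have : 0 ≤ (n:ℝ) ^ 11 * (D ^ 3 * M ^ 5) * t := by positivity
        nlinarith

/-- the good coefficients at level `k` -/
def Gd (n : ℕ) (D W : ℝ) (k : ℕ) (c : S → ℝ × ℝ) : Prop :=
  Good n c (Mk n W k) (tk n D W k) ∧ Ls n c (uk n D W k)

theorem prob_Gd (hF : Full2 n S) (μ : S → Measure (ℝ × ℝ)) [∀ m, IsProbabilityMeasure (μ m)]
    {D W : ℝ} (hD1 : 1 ≤ D) (hW1 : 1 ≤ W) (hD : Dens μ D) (hW : Mom μ W) (k : ℕ) :
    Measure.pi μ {c | ¬ Gd n D W k c} ≤ ENNReal.ofReal (3 / lk n k) := by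
  have hn := hF.one_le
  obtain ⟨hu, hu1⟩ := uk_pos hn hD1 hW1 k
  have hlk := lk_ge hn k
  have hlk0 : 0 < lk n k := by linarith
  have hsub : {c : S → ℝ × ℝ | ¬ Gd n D W k c} ⊆ {c | ¬ Good n c (Mk n W k) (tk n D W k)} ∪
      {c | (∀ m, ‖c m‖ ≤ Mk n W k) ∧ ¬ Ls n c (uk n D W k)} := by
    intro c hc
    by_cases h : Good n c (Mk n W k) (tk n D W k)
    · right
      exact ⟨h.bd, fun h2 => hc ⟨h, h2⟩⟩
    · left; exact h
  refine (measure_mono hsub).trans ((measure_union_le _ _).trans ((add_le_add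
    (prob_level hF.toFull μ hD1 hW1 hD hW k)
    (prob_Ls hF μ (by linarith) hD (mk_ge hn hW1 k) hu hu1)).trans ?_))
  have hM := mk_ge hn hW1 k
  have hM0 : 0 < Mk n W k := by linarith
  have hD0 : 0 < D := by linarith
  have hn0 : (0:ℝ) < n := by exact_mod_cast hn
  have e : 10 ^ 9 * ((n:ℝ) ^ 11 * (D ^ 3 * Mk n W k ^ 5) * uk n D W k) = 1 / lk n k := by
    unfold uk
    field_simp
  rw [e, ← ENNReal.ofReal_add (by positivity) (by positivity)]
  apply ENNReal.ofReal_le_ofReal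
  apply le_of_eq
  ring

/-- the number of dyadic steps at level `k` -/
def Bk (n : ℕ) (D W : ℝ) (k : ℕ) : ℕ := Nat.log 2 ⌈96 * n ^ 4 * Mk n W k / uk n D W k⌉₊

/-- the number of zeros along the lines at level `k` -/
def Kk (n : ℕ) (D W : ℝ) (k : ℕ) : ℕ := 4 * Kn n * Bk n D W k

lemma Bk_spec (hn : 1 ≤ n) {D W : ℝ} (hD : 1 ≤ D) (hW : 1 ≤ W) (k : ℕ) :
    24 * (n ^ 2 * (4 * n ^ 2 * Mk n W k)) < 2 ^ (Bk n D W k + 1) * uk n D W k := by
  obtain ⟨hu, hu1⟩ := uk_pos hn hD hW k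
  have h1 : ⌈96 * (n:ℝ) ^ 4 * Mk n W k / uk n D W k⌉₊ < 2 ^ (Bk n D W k + 1) :=
    Nat.lt_pow_succ_log_self (by norm_num) _
  have h2 : 96 * (n:ℝ) ^ 4 * Mk n W k / uk n D W k < 2 ^ (Bk n D W k + 1) := by
    refine (Nat.le_ceil _).trans_lt ?_
    exact_mod_cast h1
  rw [div_lt_iff₀ hu] at h2
  refine lt_of_eq_of_lt ?_ h2
  ring

lemma two_pow_le_exp (k : ℕ) : (2:ℝ) ^ k ≤ Real.exp k := by
  have h3 : (2:ℝ) ≤ Real.exp 1 := by linarith [Real.exp_one_gt_d9]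
  calc (2:ℝ) ^ k ≤ Real.exp 1 ^ k := by gcongr
    _ = Real.exp k := by rw [← Real.exp_nat_mul]; congr 1; ring

lemma Bk_le (hn : 1 ≤ n) {D W : ℝ} (hD : 1 ≤ D) (hW : 1 ≤ W) (k : ℕ) :
    (Bk n D W k : ℝ) ≤ 61 * (1 + Real.log (n * D * W) + k) := by
  have hn1 : (1:ℝ) ≤ n := by exact_mod_cast hn
  have hn0 : (0:ℝ) < n := by linarith
  have hD0 : 0 < D := by linarith
  have hW0 : 0 < W := by linarith
  obtain ⟨hu, hu1⟩ := uk_pos hn hD hW k
  have hM := mk_ge hn hW k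
  have hM0 : 0 < Mk n W k := by linarith
  set y : ℝ := 96 * (n:ℝ) ^ 4 * Mk n W k / uk n D W k with hy
  have hy1 : 1 ≤ y := by
    rw [hy, le_div_iff₀ hu]
    have : 1 ≤ (n:ℝ) ^ 4 * Mk n W k := one_le_mul_of_one_le_of_one_le (one_le_pow₀ hn1) hM
    linarith
  have hc : ⌈y⌉₊ ≠ 0 := by
    have : 0 < ⌈y⌉₊ := Nat.ceil_pos.2 (by linarith)
    omega
  have h1 : 2 ^ Bk n D W k ≤ ⌈y⌉₊ := Nat.pow_log_le_self 2 hc
  have h2 : (2:ℝ) ^ Bk n D W k ≤ 2 * y := by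
    have a1 : (2:ℝ) ^ Bk n D W k ≤ (⌈y⌉₊ : ℝ) := by exact_mod_cast h1
    have a2 := (Nat.ceil_lt_add_one (by linarith : 0 ≤ y)).le
    linarith
  have e1 : 2 * y = 192 * 64 * 10 ^ 9 * (D ^ 3 * W ^ 6 * n ^ 42) * (2 ^ k) ^ 7 := by
    rw [hy]
    unfold uk Mk lk
    field_simp
    ring
  have e2 : D ^ 3 * W ^ 6 * (n:ℝ) ^ 42 ≤ (n * D * W) ^ 42 := by
    rw [mul_pow, mul_pow]
    have h1 : D ^ 3 ≤ D ^ 42 := pow_le_pow_right₀ hD (by norm_num)
    have h2 : W ^ 6 ≤ W ^ 42 := pow_le_pow_right₀ hW (by norm_num)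
    calc D ^ 3 * W ^ 6 * (n:ℝ) ^ 42 ≤ D ^ 42 * W ^ 42 * (n:ℝ) ^ 42 := by gcongr
      _ = _ := by ring
  have e3 : (192 * 64 * 10 ^ 9 : ℝ) ≤ Real.exp 31 := by
    have h1 : Real.exp 31 = Real.exp 1 ^ 31 := by rw [← Real.exp_nat_mul]; norm_num
    rw [h1]
    calc (192 * 64 * 10 ^ 9 : ℝ) ≤ (27 / 10) ^ 31 := by norm_num
      _ ≤ Real.exp 1 ^ 31 := by
          gcongr
          linarith [Real.exp_one_gt_d9]
  set l := Real.log (n * D * W) with hl
  have hl0 : 0 ≤ l := Real.log_nonneg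
    (one_le_mul_of_one_le_of_one_le (one_le_mul_of_one_le_of_one_le hn1 hD) hW)
  have e4 : Real.log (2 * y) ≤ 31 + 42 * l + k * 7 * Real.log 2 := by
    rw [e1]
    have h1 : 192 * 64 * 10 ^ 9 * (D ^ 3 * W ^ 6 * (n:ℝ) ^ 42) * (2 ^ k) ^ 7 ≤
        Real.exp 31 * (n * D * W) ^ 42 * (2 ^ k) ^ 7 := by
      gcongr
    refine (Real.log_le_log (by positivity) h1).trans ?_
    rw [Real.log_mul (by positivity) (by positivity), Real.log_mul (by positivity) (by positivity),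
      Real.log_exp, Real.log_pow, Real.log_pow, Real.log_pow, ← hl]
    push_cast
    linarith
  have h3 := Real.log_le_log (by positivity) h2
  rw [Real.log_pow] at h3
  have h4 : 0.6931471803 < Real.log 2 := Real.log_two_gt_d9
  have hk0 : (0:ℝ) ≤ k := Nat.cast_nonneg k
  have h5 : (Bk n D W k : ℝ) * Real.log 2 ≤ 61 * (1 + l + k) * Real.log 2 := by
    nlinarith
  exact le_of_mul_le_mul_right h5 (by linarith)

/-- the bound at level `k` -/
def ck (n : ℕ) (D W : ℝ) (k : ℕ) : ℝ := 22 * 10 ^ 9 * (1 + Real.log (n * D * W) + k) ^ 3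

lemma ck_ge (hn : 1 ≤ n) {D W : ℝ} (hD : 1 ≤ D) (hW : 1 ≤ W) (k : ℕ) : 1 ≤ ck n D W k := by
  have hn1 : (1:ℝ) ≤ n := by exact_mod_cast hn
  have h1 : 0 ≤ Real.log (n * D * W) := Real.log_nonneg
    (one_le_mul_of_one_le_of_one_le (one_le_mul_of_one_le_of_one_le hn1 hD) hW)
  have h3 : (0:ℝ) ≤ k := Nat.cast_nonneg k
  unfold ck
  have : 1 ≤ (1 + Real.log (n * D * W) + k) ^ 3 := one_le_pow₀ (by linarith)
  linarith

/-- the integral over the rotations, pointwise -/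
lemma phi_le_ck (hF : Full2 n S) {D W : ℝ} (hD : 1 ≤ D) (hW : 1 ≤ W) (k : ℕ) {c : S → ℝ × ℝ}
    (hg : Gd n D W k c) :
    Phi c ≤ ENNReal.ofReal (ck n D W k) * (1 + NZ c) ∧ NZ c ≤ (n:ℝ≥0∞) ^ 2 := by
  have hn := hF.one_le
  have hn1 : (1:ℝ) ≤ n := by exact_mod_cast hn
  obtain ⟨hg1, hg2⟩ := hg
  obtain ⟨hu, hu1⟩ := uk_pos hn hD hW k
  have hM := mk_ge hn hW k
  have hax : AX (fld c) (Kk n D W k) := ax_of_Ls hn hF.deg (card_le hF.toFull) hg1.bd (by linarith)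
    hu hg2 (Bk_spec hn hD hW k)
  have hax' : AX (fld c) (Kk n D W k + 1) := by
    refine ⟨hax.smooth, fun y a b hab => ?_, fun x a b hab => ?_⟩
    · rcases hax.hor y a b hab with h | h
      · exact Or.inl h
      · exact Or.inr (h.trans (by exact_mod_cast Nat.le_succ _))
    · rcases hax.ver x a b hab with h | h
      · exact Or.inl h
      · exact Or.inr (h.trans (by exact_mod_cast Nat.le_succ _))
  obtain ⟨Z, hZc, hNZ, g, hm1, hm2, hm3⟩ := phi_leK hF.toFull hM (tk_pos hn hD hW k).1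
    (tk_pos hn hD hW k).2 hg1 (Nat.le_add_left 1 _) hax'
  have hc := ck_ge hn hD hW k
  constructor
  · unfold Phi
    refine (setLIntegral_mono' measurableSet_Ioo hm2).trans (hm3.trans ?_)
    rw [hNZ]
    have e1 : ENNReal.ofReal (ck n D W k) * (1 + (Z.card : ℝ≥0∞)) =
        ENNReal.ofReal (ck n D W k * (1 + Z.card)) := by
      rw [ENNReal.ofReal_mul (by linarith), ENNReal.ofReal_add (by norm_num) (by positivity),
        ENNReal.ofReal_one, ENNReal.ofReal_natCast]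
    rw [e1]
    apply ENNReal.ofReal_le_ofReal
    have h1 := log_level hn hD hW k
    set l := Real.log (n * D * W) with hl
    have hl0 : 0 ≤ l := Real.log_nonneg
      (one_le_mul_of_one_le_of_one_le (one_le_mul_of_one_le_of_one_le hn1 hD) hW)
    have hln : Real.log n ≤ l := by
      apply Real.log_le_log (by linarith)
      calc (n:ℝ) = n * 1 * 1 := by ring
        _ ≤ n * D * W := by gcongr
    have hk0 : (0:ℝ) ≤ k := Nat.cast_nonneg k
    set L : ℝ := 1 + l + k with hL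
    have hL1 : 1 ≤ L := by linarith
    have h2 : 700000 * (1 + Real.log (n * Mk n W k / tk n D W k)) ≤ 22400000 * L := by
      refine h1.trans ?_
      unfold bk
      rw [← hl]
      linarith
    have h3 : ((Kk n D W k + 1 : ℕ) : ℝ) ≤ 977 * L ^ 2 := by
      unfold Kk
      push_cast
      have a1 : (Kn n : ℝ) ≤ 4 * L := (Kn_le' hn).trans (by linarith)
      have a2 : (Bk n D W k : ℝ) ≤ 61 * L := Bk_le hn hD hW k
      have a3 : (Kn n : ℝ) * (Bk n D W k : ℝ) ≤ 4 * L * (61 * L) :=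
        mul_le_mul a1 a2 (by positivity) (by positivity)
      nlinarith
    have h4 : 1 + ((Kk n D W k + 1 : ℕ) : ℝ) * (Z.card : ℝ) ≤ 977 * L ^ 2 * (1 + Z.card) := by
      have a1 : 1 ≤ 977 * L ^ 2 := by nlinarith
      have a2 := mul_le_mul_of_nonneg_right h3 (Nat.cast_nonneg (α := ℝ) Z.card)
      linarith
    calc 700000 * (1 + Real.log (n * Mk n W k / tk n D W k)) *
          (1 + ((Kk n D W k + 1 : ℕ) : ℝ) * (Z.card : ℝ))
        ≤ 22400000 * L * (977 * L ^ 2 * (1 + Z.card)) := by gcongr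
      _ = 22400000 * 977 * L ^ 3 * (1 + Z.card) := by ring
      _ ≤ 22 * 10 ^ 9 * L ^ 3 * (1 + Z.card) :=
          mul_le_mul_of_nonneg_right (mul_le_mul_of_nonneg_right (by norm_num) (by positivity))
            (by positivity)
      _ = _ := by unfold ck; rw [← hl]
  · rw [hNZ]
    exact_mod_cast hZc

end

end Pool.Agent.TH275.KL
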