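import Pool.Agent.TH275.KL.Lev

/-! The expected number of closed orbits in terms of the expected number of equilibria. -/

open Real Set MeasureTheory Topology Filter
open scoped ENNReal

namespace Pool.Agent.TH275.KL

noncomputable section

open Pool.Agent
open Pool.Agent.H709R2 (fld rot rotc rot_fld NP measurable_NP continuous_rotc)
open Pool.Agent.W960.HR (Full NZ Good Phi Mk tk lk bk mk_ge tk_pos lk_ge Mom Dens RotInv
  measurePreserving_rotc')

variable {S : Finset (ℕ × ℕ)} {n : ℕ}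

/-- layers -/
lemma phi_le_tsumK (hF : Full2 n S) {D W : ℝ} (hD : 1 ≤ D) (hW : 1 ≤ W) (c : S → ℝ × ℝ) :
    Phi c ≤ ENNReal.ofReal (ck n D W 0) * (1 + NZ c) + ∑' k : ℕ,
      {c : S → ℝ × ℝ | ¬ Gd n D W k c}.indicator
        (fun _ => ENNReal.ofReal (ck n D W (k + 1) * (2 * n ^ 2))) c := by
  have hn1 : (1:ℝ) ≤ n := by exact_mod_cast hF.one_le
  by_cases h : ∃ k, Gd n D W k c
  · classical
    have hs := Nat.find_spec h
    have hm := fun j => Nat.find_min h (m := j)
    set k := Nat.find h with hk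
    rcases Nat.eq_zero_or_pos k with h0 | h0
    · rw [h0] at hs
      exact (phi_le_ck hF hD hW 0 hs).1.trans le_self_add
    · obtain ⟨j, hj⟩ := Nat.exists_eq_add_of_le' h0
      have h1 : ¬ Gd n D W j c := hm j (by omega)
      have h2 : ENNReal.ofReal (ck n D W (j + 1) * (2 * n ^ 2)) ≤ ∑' k : ℕ,
          {c : S → ℝ × ℝ | ¬ Gd n D W k c}.indicator
            (fun _ => ENNReal.ofReal (ck n D W (k + 1) * (2 * n ^ 2))) c := by
        refine le_trans ?_ (ENNReal.le_tsum j)
        rw [indicator_of_mem (show c ∈ {c : S → ℝ × ℝ | ¬ Gd n D W j c} from h1)]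
      rw [hj] at hs
      obtain ⟨h3, h4⟩ := phi_le_ck hF hD hW (j + 1) hs
      refine h3.trans (le_trans ?_ (h2.trans le_add_self))
      have hb := ck_ge hF.one_le hD hW (j + 1)
      rw [ENNReal.ofReal_mul (by linarith)]
      refine mul_le_mul_right ?_ _
      calc 1 + NZ c ≤ 1 + (n:ℝ≥0∞) ^ 2 := by gcongr
        _ = ENNReal.ofReal (1 + n ^ 2) := by
            rw [ENNReal.ofReal_add (by norm_num) (by positivity), ENNReal.ofReal_one,
              ENNReal.ofReal_pow (by positivity), ENNReal.ofReal_natCast]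
        _ ≤ ENNReal.ofReal (2 * n ^ 2) := by
            apply ENNReal.ofReal_le_ofReal
            have : (1:ℝ) ≤ (n:ℝ) ^ 2 := one_le_pow₀ hn1
            linarith
  · push Not at h
    have h1 : ∑' k : ℕ, {c : S → ℝ × ℝ | ¬ Gd n D W k c}.indicator
        (fun _ => ENNReal.ofReal (ck n D W (k + 1) * (2 * n ^ 2))) c = ⊤ := by
      rw [eq_top_iff]
      have h2 : ∀ k : ℕ, (1:ℝ≥0∞) ≤ {c : S → ℝ × ℝ | ¬ Gd n D W k c}.indicator
          (fun _ => ENNReal.ofReal (ck n D W (k + 1) * (2 * n ^ 2))) c := by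
        intro k
        rw [indicator_of_mem (show c ∈ {c : S → ℝ × ℝ | ¬ Gd n D W k c} from h k)]
        rw [← ENNReal.ofReal_one]
        apply ENNReal.ofReal_le_ofReal
        have h5 := ck_ge hF.one_le hD hW (k + 1)
        have h6 : (1:ℝ) ≤ (n:ℝ) ^ 2 := one_le_pow₀ hn1
        nlinarith
      calc (⊤ : ℝ≥0∞) = ∑' _ : ℕ, (1:ℝ≥0∞) := (ENNReal.tsum_const_eq_top_of_ne_zero one_ne_zero).symm
        _ ≤ _ := ENNReal.tsum_le_tsum h2
    rw [h1]
    simp

lemma cube_le (k : ℕ) : ((k:ℝ) + 2) ^ 3 ≤ 46 * (3 / 2) ^ k := by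
  rcases lt_or_ge k 5 with h | h
  · interval_cases k <;> norm_num
  · induction k, h using Nat.le_induction with
    | base => norm_num
    | succ k hk ih =>
      have hk' : (5:ℝ) ≤ k := by exact_mod_cast hk
      have h1 : ((k:ℝ) + 1 + 2) ^ 3 ≤ 3 / 2 * ((k:ℝ) + 2) ^ 3 := by nlinarith [sq_nonneg ((k:ℝ) - 5)]
      have h2 : (46:ℝ) * (3 / 2) ^ (k + 1) = 3 / 2 * (46 * (3 / 2) ^ k) := by ring
      rw [h2]
      push_cast
      linarith

/-- the integral over the rotations, in the mean -/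
theorem lintegral_phiK (hF : Full2 n S) (μ : S → Measure (ℝ × ℝ)) [∀ m, IsProbabilityMeasure (μ m)]
    {D W : ℝ} (hD1 : 1 ≤ D) (hW1 : 1 ≤ W) (hD : Dens μ D) (hW : Mom μ W) :
    ∫⁻ c, Phi c ∂Measure.pi μ ≤
      ENNReal.ofReal (25 * 10 ^ 12 * (1 + Real.log (n * D * W)) ^ 3) *
        (1 + ∫⁻ c, NZ c ∂Measure.pi μ) := by
  have hn := hF.one_le
  have hn1 : (1:ℝ) ≤ n := by exact_mod_cast hn
  have hn0 : (0:ℝ) < n := by linarith
  set P := Measure.pi μ with hP
  set l := Real.log (n * D * W) with hl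
  have hl0 : 0 ≤ l := Real.log_nonneg
    (one_le_mul_of_one_le_of_one_le (one_le_mul_of_one_le_of_one_le hn1 hD1) hW1)
  have hb : ∀ k, 0 ≤ ck n D W k := fun k => by linarith [ck_ge hn hD1 hW1 k]
  set E : ℕ → Set (S → ℝ × ℝ) := fun k =>
    toMeasurable P {c | ¬ Gd n D W k c} with hE
  set T : (S → ℝ × ℝ) → ℝ≥0∞ := fun c => ∑' k : ℕ,
      (E k).indicator (fun _ => ENNReal.ofReal (ck n D W (k + 1) * (2 * n ^ 2))) c with hT
  have hTm : Measurable T := Measurable.tsum fun k =>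
    measurable_const.indicator (measurableSet_toMeasurable _ _)
  have h1 : ∀ c : S → ℝ × ℝ, Phi c ≤ ENNReal.ofReal (ck n D W 0) * (1 + NZ c) + T c := by
    intro c
    refine (phi_le_tsumK hF hD1 hW1 c).trans (add_le_add le_rfl (ENNReal.tsum_le_tsum fun k => ?_))
    exact indicator_le_indicator_of_subset (subset_toMeasurable _ _) (fun _ => zero_le) c
  refine (lintegral_mono h1).trans ?_
  rw [lintegral_add_right _ hTm, lintegral_const_mul' _ _ ENNReal.ofReal_ne_top,
    lintegral_add_left measurable_const, lintegral_const, measure_univ, mul_one]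
  set Y := 1 + ∫⁻ c, NZ c ∂P with hY
  set A : ℝ := 22 * 10 ^ 9 * (1 + l) ^ 3 with hA
  have hA0 : 0 ≤ A := by positivity
  have hTi : ∫⁻ c, T c ∂P ≤ ENNReal.ofReal (1104 * A) := by
    simp only [hT]
    rw [lintegral_tsum fun k =>
      (measurable_const.indicator (measurableSet_toMeasurable _ _)).aemeasurable]
    have h2 : ∀ k, ∫⁻ c, (E k).indicator
        (fun _ => ENNReal.ofReal (ck n D W (k + 1) * (2 * n ^ 2))) c ∂P ≤
        ENNReal.ofReal (276 * A * (3 / 4) ^ k) := by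
      intro k
      rw [lintegral_indicator (measurableSet_toMeasurable _ _), setLIntegral_const,
        measure_toMeasurable]
      refine (mul_le_mul_right (prob_Gd hF μ hD1 hW1 hD hW k) _).trans ?_
      have h3 := hb (k + 1)
      rw [← ENNReal.ofReal_mul (by positivity)]
      apply ENNReal.ofReal_le_ofReal
      have hk0 : (0:ℝ) ≤ k := Nat.cast_nonneg k
      have h5 : ck n D W (k + 1) ≤ A * ((k:ℝ) + 2) ^ 3 := by
        unfold ck
        rw [← hl, hA, mul_assoc (22 * 10 ^ 9 : ℝ), ← mul_pow]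
        refine mul_le_mul_of_nonneg_left (pow_le_pow_left₀ (by positivity) ?_ 3) (by norm_num)
        push_cast
        nlinarith
      have h6 : 2 * (n:ℝ) ^ 2 * (3 / lk n k) ≤ 6 * (1 / 2) ^ k := by
        unfold lk
        rw [mul_div_assoc', div_le_iff₀ (by positivity)]
        have e : 6 * (1 / 2 : ℝ) ^ k * ((n:ℝ) ^ 3 * 2 ^ k) = 6 * n ^ 3 := by
          have : (1 / 2 : ℝ) ^ k * 2 ^ k = 1 := by rw [← mul_pow]; norm_num
          linear_combination (6 * (n:ℝ) ^ 3) * this
        rw [e]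
        have : (n:ℝ) ^ 2 ≤ n ^ 3 := pow_le_pow_right₀ hn1 (by norm_num)
        linarith
      calc ck n D W (k + 1) * (2 * n ^ 2) * (3 / lk n k)
          = ck n D W (k + 1) * (2 * (n:ℝ) ^ 2 * (3 / lk n k)) := by ring
        _ ≤ A * ((k:ℝ) + 2) ^ 3 * (6 * (1 / 2) ^ k) := by
            apply mul_le_mul h5 h6 _ (by positivity)
            have := lk_ge hn k
            positivity
        _ ≤ A * (46 * (3 / 2) ^ k) * (6 * (1 / 2) ^ k) := by
            gcongr
            exact cube_le k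
        _ = 276 * A * ((3 / 2) ^ k * (1 / 2) ^ k) := by ring
        _ = 276 * A * (3 / 4) ^ k := by rw [← mul_pow]; norm_num
    have hs : HasSum (fun k : ℕ => 276 * A * (3 / 4 : ℝ) ^ k) (1104 * A) := by
      have h3 := (hasSum_geometric_of_lt_one (r := (3 / 4 : ℝ)) (by norm_num)
        (by norm_num)).mul_left (276 * A)
      have e : 276 * A * (1 - 3 / 4 : ℝ)⁻¹ = 1104 * A := by norm_num; ring
      rw [e] at h3
      exact h3
    refine (ENNReal.tsum_le_tsum h2).trans ?_
    rw [← ENNReal.ofReal_tsum_of_nonneg (fun k => by positivity) hs.summable, hs.tsum_eq]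
  have hY1 : 1 ≤ Y := le_self_add
  have h4 : ENNReal.ofReal (1104 * A) ≤ ENNReal.ofReal (1104 * A) * Y :=
    le_mul_of_one_le_right zero_le hY1
  calc ENNReal.ofReal (ck n D W 0) * Y + ∫⁻ c, T c ∂P
      ≤ ENNReal.ofReal (ck n D W 0) * Y + ENNReal.ofReal (1104 * A) * Y :=
        add_le_add le_rfl (hTi.trans h4)
    _ = ENNReal.ofReal (ck n D W 0 + 1104 * A) * Y := by
        rw [← add_mul, ← ENNReal.ofReal_add (hb 0) (by positivity)]
    _ ≤ ENNReal.ofReal (25 * 10 ^ 12 * (1 + l) ^ 3) * Y := by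
        refine mul_le_mul_left (ENNReal.ofReal_le_ofReal ?_) _
        unfold ck
        rw [← hl, Nat.cast_zero, add_zero, hA]
        have : 0 ≤ (1 + l) ^ 3 := by positivity
        linarith

/-- **The expected number of closed orbits.** -/
theorem expectedK (hF : Full2 n S) (μ : S → Measure (ℝ × ℝ)) [∀ m, IsProbabilityMeasure (μ m)]
    {D W : ℝ} (hD1 : 1 ≤ D) (hW1 : 1 ≤ W) (hD : Dens μ D) (hW : Mom μ W) (hR : RotInv μ) :
    ∫⁻ c, NP c ∂Measure.pi μ ≤
      ENNReal.ofReal (10 ^ 13 * (1 + Real.log (n * D * W)) ^ 3) *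
        (1 + ∫⁻ c, NZ c ∂Measure.pi μ) := by
  have hn1 : (1:ℝ) ≤ n := by exact_mod_cast hF.one_le
  have hl0 : 0 ≤ Real.log (n * D * W) := Real.log_nonneg
    (one_le_mul_of_one_le_of_one_le (one_le_mul_of_one_le_of_one_le hn1 hD1) hW1)
  have h1 : ∀ α, ∫⁻ c, NP (rotc α c) ∂Measure.pi μ = ∫⁻ c, NP c ∂Measure.pi μ := fun α =>
    (measurePreserving_rotc' μ hR α).lintegral_comp measurable_NP
  have hmeas : Measurable (Function.uncurry fun (α : ℝ) (c : S → ℝ × ℝ) => NP (rotc α c)) :=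
    measurable_NP.comp continuous_rotc.measurable
  have h2 : ∫⁻ c, Phi c ∂Measure.pi μ = ENNReal.ofReal π * ∫⁻ c, NP c ∂Measure.pi μ := by
    unfold Phi
    rw [← lintegral_lintegral_swap (μ := volume.restrict (Ioo 0 π)) (ν := Measure.pi μ)
      (f := fun (α : ℝ) (c : S → ℝ × ℝ) => NP (rotc α c)) hmeas.aemeasurable]
    simp only [h1]
    rw [lintegral_const, Measure.restrict_apply_univ, Real.volume_Ioo, sub_zero, mul_comm]
  have h3 := lintegral_phiK hF μ hD1 hW1 hD hW
  rw [h2] at h3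
  set Y := 1 + ∫⁻ c, NZ c ∂Measure.pi μ with hY
  have h4 : ENNReal.ofReal 3 * ∫⁻ c, NP c ∂Measure.pi μ ≤
      ENNReal.ofReal 3 * (ENNReal.ofReal (10 ^ 13 * (1 + Real.log (n * D * W)) ^ 3) * Y) := by
    rw [← mul_assoc, ← ENNReal.ofReal_mul (by norm_num)]
    refine le_trans ?_ (h3.trans (mul_le_mul_left (ENNReal.ofReal_le_ofReal ?_) _))
    · gcongr
      exact Real.pi_gt_three.le
    · have : 0 ≤ (1 + Real.log (n * D * W)) ^ 3 := by positivity
      linarith
  exact (ENNReal.mul_le_mul_iff_right (by simp) ENNReal.ofReal_ne_top).1 h4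

end

end Pool.Agent.TH275.KL
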