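import Pool.Agent.TH275.KL.Strip
import Pool.Agent.TH275.KL.Cover

/-! The probability that a component of the field and its first two derivatives along a line parallel
to an axis are small at a node. -/

open Set MeasureTheory Topology Filter
open scoped ENNReal

namespace Pool.Agent.TH275.KL

noncomputable section

open Pool.Agent.TH275.RF (ip)
open Pool.Agent.W960.HR (Dens lin continuous_lin lin_update resample grid card_grid)

variable {S : Finset (ℕ × ℕ)} {n : ℕ} {M N t : ℝ}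

/-- weights of the derivatives -/
def wr (r : ℕ) (e : S → ℕ × ℕ) (x w : ℝ) (m : S) : ℝ :=
  ((e m).1.descFactorial r : ℝ) * x ^ ((e m).1 - r) * w ^ (e m).2

/-- directions -/
def dir (d : Bool) (σ : ℝ) : ℝ × ℝ := if d then (1, σ) else (σ, 1)

lemma norm_dir (d : Bool) {σ : ℝ} (hσ : |σ| ≤ 1) : ‖dir d σ‖ ≤ 1 := by
  cases d
  · simp only [dir, Bool.false_eq_true, if_false]
    rw [Prod.norm_def]; exact max_le hσ (by simp)
  · simp only [dir, if_true]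
    rw [Prod.norm_def]; exact max_le (by simp) hσ

lemma dir_sub (d : Bool) (σ σ' : ℝ) : ‖dir d σ - dir d σ'‖ ≤ |σ - σ'| := by
  cases d
  · simp only [dir, Bool.false_eq_true, if_false]
    rw [Prod.norm_def]; simp
  · simp only [dir, if_true]
    rw [Prod.norm_def]; simp

lemma dir_one (d : Bool) (σ : ℝ) : |(dir d σ).1| = 1 ∨ |(dir d σ).2| = 1 := by
  cases d
  · right; simp [dir]
  · left; simp [dir]

lemma abs_pow_sub_le {w w' : ℝ} (hw : |w| ≤ 1) (hw' : |w'| ≤ 1) (j : ℕ) :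
    |w ^ j - w' ^ j| ≤ j * |w - w'| := by
  induction j with
  | zero => simp
  | succ j ih =>
    have e : w ^ (j + 1) - w' ^ (j + 1) = w * (w ^ j - w' ^ j) + (w - w') * w' ^ j := by ring
    rw [e]
    refine (abs_add_le _ _).trans ?_
    rw [abs_mul, abs_mul, abs_pow]
    have h1 : |w| * |w ^ j - w' ^ j| ≤ 1 * (j * |w - w'|) :=
      mul_le_mul hw ih (abs_nonneg _) (by norm_num)
    have h2 : |w - w'| * |w'| ^ j ≤ |w - w'| * 1 :=
      mul_le_mul_of_nonneg_left (pow_le_one₀ (abs_nonneg _) hw') (abs_nonneg _)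
    push_cast
    linarith

lemma abs_wr_le {e : S → ℕ × ℕ} (he : ∀ m, (e m).1 ≤ n) {r : ℕ} {x w : ℝ}
    (hx : |x| ≤ 1) (hw : |w| ≤ 1) (m : S) : |wr r e x w m| ≤ n ^ r := by
  unfold wr
  rw [abs_mul, abs_mul, Nat.abs_cast, abs_pow, abs_pow]
  have h1 : ((e m).1.descFactorial r : ℝ) ≤ n ^ r := by
    exact_mod_cast (Nat.descFactorial_le_pow _ _).trans (Nat.pow_le_pow_left (he m) r)
  have h2 : |x| ^ ((e m).1 - r) ≤ 1 := pow_le_one₀ (abs_nonneg _) hx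
  have h3 : |w| ^ (e m).2 ≤ 1 := pow_le_one₀ (abs_nonneg _) hw
  calc ((e m).1.descFactorial r : ℝ) * |x| ^ ((e m).1 - r) * |w| ^ (e m).2 ≤ n ^ r * 1 * 1 := by
        gcongr
    _ = _ := by ring

lemma abs_wr_sub_le {e : S → ℕ × ℕ} (he : ∀ m, (e m).1 ≤ n) (he' : ∀ m, (e m).2 ≤ n) {r : ℕ}
    {x w w' : ℝ} (hx : |x| ≤ 1) (hw : |w| ≤ 1) (hw' : |w'| ≤ 1) (m : S) :
    |wr r e x w m - wr r e x w' m| ≤ n ^ r * (n * |w - w'|) := by
  unfold wr
  rw [← mul_sub, abs_mul, abs_mul, Nat.abs_cast, abs_pow]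
  have h1 : ((e m).1.descFactorial r : ℝ) ≤ n ^ r := by
    exact_mod_cast (Nat.descFactorial_le_pow _ _).trans (Nat.pow_le_pow_left (he m) r)
  have h2 : |x| ^ ((e m).1 - r) ≤ 1 := pow_le_one₀ (abs_nonneg _) hx
  have h3 : |w ^ (e m).2 - w' ^ (e m).2| ≤ n * |w - w'| := by
    refine (abs_pow_sub_le hw hw' _).trans (mul_le_mul_of_nonneg_right ?_ (abs_nonneg _))
    exact_mod_cast he' m
  calc ((e m).1.descFactorial r : ℝ) * |x| ^ ((e m).1 - r) * |w ^ (e m).2 - w' ^ (e m).2|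
      ≤ n ^ r * 1 * (n * |w - w'|) := by gcongr
    _ = _ := by ring

lemma norm_lin_le {W : S → ℝ} {A : ℝ} (hA : ∀ m, |W m| ≤ A) {c : S → ℝ × ℝ}
    (hM : ∀ m, ‖c m‖ ≤ M) (hA0 : 0 ≤ A) (hM0 : 0 ≤ M) (hN : (S.card : ℝ) ≤ N) :
    ‖lin W c‖ ≤ N * (A * M) := by
  unfold lin
  refine (norm_sum_le _ _).trans ?_
  calc ∑ m : S, ‖W m • c m‖ ≤ ∑ _m : S, A * M := by
        refine Finset.sum_le_sum fun m _ => ?_
        rw [norm_smul, Real.norm_eq_abs]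
        exact mul_le_mul (hA m) (hM m) (norm_nonneg _) hA0
    _ = S.card * (A * M) := by rw [Finset.sum_const, Finset.card_univ, Fintype.card_coe, nsmul_eq_mul]
    _ ≤ N * (A * M) := mul_le_mul_of_nonneg_right hN (by positivity)

lemma lin_sub_left (W W' : S → ℝ) (c : S → ℝ × ℝ) :
    lin W c - lin W' c = lin (fun m => W m - W' m) c := by
  unfold lin
  rw [← Finset.sum_sub_distrib]
  refine Finset.sum_congr rfl fun m _ => ?_
  rw [sub_smul]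

/-- **One node.** -/
theorem prob_node (μ : S → Measure (ℝ × ℝ)) [∀ m, IsProbabilityMeasure (μ m)] {D : ℝ} (hD0 : 0 ≤ D)
    (hD : Dens μ D) {e : S → ℕ × ℕ} (he : ∀ m, (e m).1 ≤ n) (he' : ∀ m, (e m).2 ≤ n) (hn : 1 ≤ n)
    (hN : (S.card : ℝ) ≤ N) (hN1 : 1 ≤ N) (hM1 : 1 ≤ M) (ht : 0 < t) (ht1 : t ≤ 1)
    {m₀ m₁ m₂ : S} (hm₀ : e m₀ = (0, 0)) (hm₁ : e m₁ = (1, 0)) (hm₂ : e m₂ = (2, 0)) (d : Bool)
    {x : ℝ} (hx : |x| ≤ 1) :
    Measure.pi μ {c | (∀ m, ‖c m‖ ≤ M) ∧ ∃ w σ : ℝ, |w| ≤ 1 ∧ |σ| ≤ 1 ∧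
      ∀ r ≤ 2, |ip (dir d σ) (lin (wr r e x w) c)| < t} ≤
      ENNReal.ofReal (18432 * (D ^ 3 * M ^ 3 * (4 * (N * (n ^ 3 * M))) ^ 2 * t)) := by
  have hn1 : (1:ℝ) ≤ n := by exact_mod_cast hn
  have hM0 : 0 ≤ M := by linarith
  have hN0 : 0 ≤ N := by linarith
  set B : ℝ := 4 * (N * (n ^ 3 * M)) with hB
  have hB1 : 1 ≤ B := by
    have : 1 ≤ N * (n ^ 3 * M) := one_le_mul_of_one_le_of_one_le hN1
      (one_le_mul_of_one_le_of_one_le (one_le_pow₀ hn1) hM1)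
    linarith
  have hB0 : 0 < B := by linarith
  set K : ℕ := ⌈B / t⌉₊ with hK
  have hBt : 1 ≤ B / t := by rw [le_div_iff₀ ht]; linarith
  have hK1 : B / t ≤ K := Nat.le_ceil _
  have hK2 : (K:ℝ) ≤ 2 * (B / t) := by
    have := (Nat.ceil_lt_add_one (by positivity : 0 ≤ B / t)).le
    rw [← hK] at this
    linarith
  have hKr : (0:ℝ) < K := by linarith
  have hK0 : 0 < K := by exact_mod_cast hKr
  have hBK : B * (1 / K) ≤ t := by
    rw [mul_one_div, div_le_iff₀ hKr]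
    rw [div_le_iff₀ ht] at hK1
    linarith
  set G := Finset.Icc (-(K:ℤ)) K with hG
  set E : ℤ × ℤ → Set (S → ℝ × ℝ) := fun q =>
    {c | (∀ m, ‖c m‖ ≤ M) ∧ |ip (dir d ((q.2:ℝ) / K)) (lin (wr 0 e x ((q.1:ℝ) / K)) c)| ≤ 2 * t ∧
      |ip (dir d ((q.2:ℝ) / K)) (lin (wr 1 e x ((q.1:ℝ) / K)) c)| ≤ 2 * t ∧
      |ip (dir d ((q.2:ℝ) / K)) (lin (wr 2 e x ((q.1:ℝ) / K)) c)| ≤ 2 * t} with hE
  have hsub : {c : S → ℝ × ℝ | (∀ m, ‖c m‖ ≤ M) ∧ ∃ w σ : ℝ, |w| ≤ 1 ∧ |σ| ≤ 1 ∧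
      ∀ r ≤ 2, |ip (dir d σ) (lin (wr r e x w) c)| < t} ⊆ ⋃ q ∈ G ×ˢ G, E q := by
    rintro c ⟨hcM, w, σ, hw, hσ, hlt⟩
    obtain ⟨i, hi, hi1, hi2⟩ := grid hK0 hw
    obtain ⟨j, hj, hj1, hj2⟩ := grid hK0 hσ
    simp only [mem_iUnion]
    refine ⟨(i, j), Finset.mk_mem_product hi hj, ?_⟩
    have key : ∀ r ≤ 2, |ip (dir d ((j:ℝ) / K)) (lin (wr r e x ((i:ℝ) / K)) c)| ≤ 2 * t := by
      intro r hr
      set w' : ℝ := (i:ℝ) / K with hw'
      set σ' : ℝ := (j:ℝ) / K with hσ'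
      have hnr : (n:ℝ) ^ r ≤ n ^ 2 := pow_le_pow_right₀ hn1 hr
      have e1 : ip (dir d σ') (lin (wr r e x w') c) = ip (dir d σ) (lin (wr r e x w) c) +
          ip (dir d σ' - dir d σ) (lin (wr r e x w) c) +
          ip (dir d σ') (lin (wr r e x w') c - lin (wr r e x w) c) := by
        rw [ip_sub_left, ip_sub]; ring
      have h1 : |ip (dir d σ' - dir d σ) (lin (wr r e x w) c)| ≤
          2 * (1 / K * (N * (n ^ 2 * M))) := by
        refine (abs_ip_le _ _).trans ?_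
        have a1 : ‖dir d σ' - dir d σ‖ ≤ 1 / K := (dir_sub d _ _).trans hj1
        have a2 : ‖lin (wr r e x w) c‖ ≤ N * (n ^ 2 * M) :=
          norm_lin_le (fun m => (abs_wr_le he hx hw m).trans hnr) hcM (by positivity) hM0 hN
        have := mul_le_mul a1 a2 (norm_nonneg _) (by positivity)
        linarith
      have h2 : |ip (dir d σ') (lin (wr r e x w') c - lin (wr r e x w) c)| ≤
          2 * (1 * (N * (n ^ 3 * (1 / K) * M))) := by
        refine (abs_ip_le _ _).trans ?_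
        have a1 : ‖dir d σ'‖ ≤ 1 := norm_dir d hj2
        have a2 : ‖lin (wr r e x w') c - lin (wr r e x w) c‖ ≤ N * (n ^ 3 * (1 / K) * M) := by
          rw [lin_sub_left]
          refine norm_lin_le (fun m => (abs_wr_sub_le he he' hx hi2 hw m).trans ?_) hcM
            (by positivity) hM0 hN
          calc (n:ℝ) ^ r * (n * |w' - w|) ≤ n ^ 2 * (n * (1 / K)) := by gcongr
            _ = _ := by ring
        have := mul_le_mul a1 a2 (norm_nonneg _) (by norm_num)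
        linarith
      have h3 : 2 * (1 / K * (N * (n ^ 2 * M))) ≤ 2 * (1 * (N * (n ^ 3 * (1 / K) * M))) := by
        have a3 : (n:ℝ) ^ 2 ≤ n ^ 3 := pow_le_pow_right₀ hn1 (by norm_num)
        have a4 : N * ((n:ℝ) ^ 2 * M) ≤ N * (n ^ 3 * M) := by gcongr
        have a5 : 0 ≤ 1 / (K:ℝ) := by positivity
        have := mul_le_mul_of_nonneg_left a4 a5
        linarith
      have h4 : 4 * (1 * (N * ((n:ℝ) ^ 3 * (1 / K) * M))) = B * (1 / K) := by rw [hB]; ring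
      rw [e1]
      refine (abs_add_le _ _).trans ((add_le_add (abs_add_le _ _) le_rfl).trans ?_)
      have := hlt r hr
      linarith
    exact ⟨hcM, key 0 (by norm_num), key 1 (by norm_num), key 2 le_rfl⟩
  refine (measure_mono hsub).trans ((measure_biUnion_finset_le _ _).trans ?_)
  have h01 : m₁ ≠ m₀ := by intro h; rw [h, hm₀] at hm₁; simp at hm₁
  have h02 : m₂ ≠ m₀ := by intro h; rw [h, hm₀] at hm₂; simp at hm₂
  have h12 : m₂ ≠ m₁ := by intro h; rw [h, hm₁] at hm₂; simp at hm₂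
  have hEq : ∀ q ∈ G ×ˢ G, Measure.pi μ (E q) ≤ ENNReal.ofReal ((D * (4 * M * (2 * t))) ^ 3) := by
    intro q _
    refine prob_three μ hD0 hD (dir_one _ _) h01 h02 h12 ?_ ?_ ?_ ?_ ?_ ?_ hM0 (by positivity)
    · simp [wr, hm₀]
    · simp [wr, hm₁]
    · simp [wr, hm₂, Nat.descFactorial]
    · simp [wr, hm₀]
    · simp [wr, hm₀]
    · simp [wr, hm₁, Nat.descFactorial]
  refine (Finset.sum_le_card_nsmul _ _ _ hEq).trans ?_
  rw [Finset.card_product, nsmul_eq_mul]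
  have e2 : (((G.card * G.card : ℕ)) : ℝ≥0∞) = ENNReal.ofReal ((2 * K + 1) * (2 * K + 1)) := by
    rw [← ENNReal.ofReal_natCast]
    congr 1
    push_cast
    rw [card_grid]
  rw [e2, ← ENNReal.ofReal_mul (by positivity)]
  apply ENNReal.ofReal_le_ofReal
  have h3 : (2 * (K:ℝ) + 1) ≤ 6 * (B / t) := by
    have : (1:ℝ) ≤ K := by exact_mod_cast hK0
    linarith
  have h4 : (2 * (K:ℝ) + 1) * (2 * K + 1) ≤ 36 * (B / t) ^ 2 := by
    calc (2 * (K:ℝ) + 1) * (2 * K + 1) = (2 * (K:ℝ) + 1) ^ 2 := by ring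
      _ ≤ (6 * (B / t)) ^ 2 := by gcongr
      _ = _ := by ring
  calc (2 * (K:ℝ) + 1) * (2 * K + 1) * (D * (4 * M * (2 * t))) ^ 3
      ≤ 36 * (B / t) ^ 2 * (D * (4 * M * (2 * t))) ^ 3 := by gcongr
    _ = 18432 * (D ^ 3 * M ^ 3 * B ^ 2 * t) := by field_simp; ring

/-- lower bounds at all nodes for a family of lines -/
def Lc (n : ℕ) (e : S → ℕ × ℕ) (c : S → ℝ × ℝ) (t : ℝ) : Prop :=
  ∀ (s : Bool), ∀ k < Kn n, cn n k ≤ 1 → ∀ (d : Bool) (w σ : ℝ), |w| ≤ 1 → |σ| ≤ 1 →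
    ∃ r : ℕ, r ≤ 2 ∧ t ≤ |ip (dir d σ) (lin (wr r e (sgn s * cn n k) w) c)|

/-- **One family of lines.** -/
theorem prob_Lc (μ : S → Measure (ℝ × ℝ)) [∀ m, IsProbabilityMeasure (μ m)] {D : ℝ} (hD0 : 0 ≤ D)
    (hD : Dens μ D) {e : S → ℕ × ℕ} (he : ∀ m, (e m).1 ≤ n) (he' : ∀ m, (e m).2 ≤ n) (hn : 1 ≤ n)
    (hN : (S.card : ℝ) ≤ N) (hN1 : 1 ≤ N) (hM1 : 1 ≤ M) (ht : 0 < t) (ht1 : t ≤ 1)
    {m₀ m₁ m₂ : S} (hm₀ : e m₀ = (0, 0)) (hm₁ : e m₁ = (1, 0)) (hm₂ : e m₂ = (2, 0)) :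
    Measure.pi μ {c | (∀ m, ‖c m‖ ≤ M) ∧ ¬ Lc n e c t} ≤
      ENNReal.ofReal (4 * Kn n * (18432 * (D ^ 3 * M ^ 3 * (4 * (N * (n ^ 3 * M))) ^ 2 * t))) := by
  have hM0 : 0 ≤ M := by linarith
  set I : Finset (Bool × ℕ × Bool) := Finset.univ ×ˢ (Finset.range (Kn n) ×ˢ Finset.univ) with hI
  set E : Bool × ℕ × Bool → Set (S → ℝ × ℝ) := fun q =>
    {c | cn n q.2.1 ≤ 1 ∧ (∀ m, ‖c m‖ ≤ M) ∧ ∃ w σ : ℝ, |w| ≤ 1 ∧ |σ| ≤ 1 ∧
      ∀ r ≤ 2, |ip (dir q.2.2 σ) (lin (wr r e (sgn q.1 * cn n q.2.1) w) c)| < t} with hE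
  have hsub : {c : S → ℝ × ℝ | (∀ m, ‖c m‖ ≤ M) ∧ ¬ Lc n e c t} ⊆ ⋃ q ∈ I, E q := by
    rintro c ⟨hcM, hc⟩
    unfold Lc at hc
    push Not at hc
    obtain ⟨s, k, hk, hk1, d, w, σ, hw, hσ, h⟩ := hc
    simp only [mem_iUnion]
    exact ⟨(s, k, d), Finset.mk_mem_product (Finset.mem_univ _) (Finset.mk_mem_product
      (Finset.mem_range.2 hk) (Finset.mem_univ _)), hk1, hcM, w, σ, hw, hσ, h⟩
  refine (measure_mono hsub).trans ((measure_biUnion_finset_le _ _).trans ?_)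
  have hEq : ∀ q ∈ I, Measure.pi μ (E q) ≤
      ENNReal.ofReal (18432 * (D ^ 3 * M ^ 3 * (4 * (N * (n ^ 3 * M))) ^ 2 * t)) := by
    intro q _
    by_cases h : cn n q.2.1 ≤ 1
    · refine (measure_mono ?_).trans (prob_node μ hD0 hD he he' hn hN hN1 hM1 ht ht1 hm₀ hm₁ hm₂
        q.2.2 (x := sgn q.1 * cn n q.2.1) ?_)
      · rintro c ⟨-, h2⟩
        exact h2
      · rw [abs_mul, abs_sgn, one_mul, abs_of_nonneg (cn_nonneg _ _)]
        exact h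
    · have : E q = ∅ := by
        rw [eq_empty_iff_forall_notMem]
        rintro c ⟨h', -⟩
        exact h h'
      rw [this, measure_empty]
      exact zero_le
  refine (Finset.sum_le_card_nsmul _ _ _ hEq).trans ?_
  rw [hI, Finset.card_product, Finset.card_product, Finset.card_univ, Fintype.card_bool,
    Finset.card_range, nsmul_eq_mul]
  have e2 : ((2 * (Kn n * 2) : ℕ) : ℝ≥0∞) = ENNReal.ofReal (4 * Kn n) := by
    rw [← ENNReal.ofReal_natCast]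
    congr 1
    push_cast
    ring
  rw [e2, ← ENNReal.ofReal_mul (by positivity)]

end

end Pool.Agent.TH275.KL
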