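import Pool.Agent.TH275.RF.Lines
import Pool.Agent.W960.HR.Chart3

/-! A polynomial with many zeros in a short interval is small there. -/

open Set MeasureTheory Topology Filter Polynomial

namespace Pool.Agent.TH275.KL

noncomputable section

open Pool.Agent.TH275.RF (spoly eval_spoly)

/-- Rolle's theorem in an interval -/
lemma rolle {a b : ℝ} (P : ℝ[X]) {k : ℕ} {Z : Finset ℝ} (hk : Z.card = k + 1)
    (hZ : ∀ z ∈ Z, z ∈ Icc a b ∧ P.eval z = 0) :
    ∃ Z' : Finset ℝ, Z'.card = k ∧ ∀ z ∈ Z', z ∈ Icc a b ∧ (derivative P).eval z = 0 := by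
  rcases eq_or_ne (derivative P) 0 with h0 | h0
  · obtain ⟨Z', hZ', hc⟩ := Finset.exists_subset_card_eq (show k ≤ Z.card by omega)
    exact ⟨Z', hc, fun z hz => ⟨(hZ z (hZ' hz)).1, by rw [h0]; simp⟩⟩
  · set T : Finset ℝ := (derivative P).roots.toFinset.filter (fun x => x ∈ Icc a b) with hT
    have h1 : Z.card ≤ T.card + 1 := by
      refine Finset.card_le_of_interleaved fun x hx y hy hxy _ => ?_
      obtain ⟨z, hz1, hz2⟩ := exists_deriv_eq_zero hxy P.continuousOn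
        ((hZ x hx).2.trans (hZ y hy).2.symm)
      refine ⟨z, ?_, hz1⟩
      rw [hT, Finset.mem_filter, Multiset.mem_toFinset, mem_roots h0, IsRoot, ← P.deriv]
      exact ⟨hz2, (hZ x hx).1.1.trans hz1.1.le, hz1.2.le.trans (hZ y hy).1.2⟩
    obtain ⟨Z', hZ', hc⟩ := Finset.exists_subset_card_eq (show k ≤ T.card by omega)
    refine ⟨Z', hc, fun z hz => ?_⟩
    have h2 := hZ' hz
    rw [hT, Finset.mem_filter, Multiset.mem_toFinset, mem_roots h0, IsRoot] at h2
    exact ⟨h2.2, h2.1⟩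

lemma rolle_iter {a b : ℝ} (j : ℕ) : ∀ (P : ℝ[X]) {k : ℕ} {Z : Finset ℝ}, Z.card = k + j →
    (∀ z ∈ Z, z ∈ Icc a b ∧ P.eval z = 0) →
    ∃ Z' : Finset ℝ, Z'.card = k ∧ ∀ z ∈ Z', z ∈ Icc a b ∧ (derivative^[j] P).eval z = 0 := by
  induction j with
  | zero => intro P k Z hk hZ; exact ⟨Z, by simpa using hk, by simpa using hZ⟩
  | succ j ih =>
    intro P k Z hk hZ
    obtain ⟨Z', hc, hZ'⟩ := rolle P (k := k + j) (by omega) hZ
    obtain ⟨Z'', hc', hZ''⟩ := ih (derivative P) hc hZ'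
    exact ⟨Z'', hc', fun z hz => by rw [Function.iterate_succ_apply]; exact hZ'' z hz⟩

/-- interpolation error -/
lemma interp {a b : ℝ} (P : ℝ[X]) {Z : Finset ℝ} (hZ : ∀ z ∈ Z, z ∈ Icc a b ∧ P.eval z = 0)
    {x : ℝ} (hx : x ∈ Icc a b) :
    ∃ ξ ∈ Icc a b, |P.eval x| ≤ (b - a) ^ Z.card * |(hasseDeriv Z.card P).eval ξ| := by
  by_cases hxZ : x ∈ Z
  · refine ⟨x, hx, ?_⟩
    rw [(hZ x hxZ).2, abs_zero]
    have : 0 ≤ b - a := by linarith [hx.1, hx.2]
    positivity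
  set N := Z.card with hN
  set ω : ℝ[X] := ∏ z ∈ Z, (X - C z) with hω
  have hdeg : ω.natDegree = N := by
    rw [hω, natDegree_prod_of_monic _ _ fun z _ => monic_X_sub_C z]
    simp [hN]
  have hmon : ω.Monic := monic_prod_of_monic _ _ fun z _ => monic_X_sub_C z
  have heval : ∀ y, ω.eval y = ∏ z ∈ Z, (y - z) := by
    intro y
    rw [hω, eval_prod]
    simp
  set φ : ℝ[X] := C (ω.eval x) * P - C (P.eval x) * ω with hφ
  have hzero : ∀ z ∈ insert x Z, z ∈ Icc a b ∧ φ.eval z = 0 := by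
    intro z hz
    rcases Finset.mem_insert.1 hz with rfl | hz
    · refine ⟨hx, ?_⟩
      simp only [hφ, eval_sub, eval_mul, eval_C]
      ring
    · refine ⟨(hZ z hz).1, ?_⟩
      have h0 : ω.eval z = 0 := by
        rw [heval]
        exact Finset.prod_eq_zero hz (sub_self z)
      simp only [hφ, eval_sub, eval_mul, eval_C, (hZ z hz).2, h0]
      ring
  obtain ⟨Z', hc, hZ'⟩ := rolle_iter (a := a) (b := b) N φ (k := 1) (Z := insert x Z)
    (by rw [Finset.card_insert_of_notMem hxZ]; omega) hzero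
  obtain ⟨ξ, hξ⟩ := Finset.card_pos.1 (by rw [hc]; exact one_pos)
  obtain ⟨hξ1, hξ2⟩ := hZ' ξ hξ
  refine ⟨ξ, hξ1, ?_⟩
  rw [← factorial_smul_hasseDeriv, LinearMap.smul_apply, eval_smul, nsmul_eq_mul] at hξ2
  have hf : (N.factorial : ℝ) ≠ 0 := by exact_mod_cast N.factorial_ne_zero
  have h1 : (hasseDeriv N φ).eval ξ = 0 := (mul_eq_zero.1 hξ2).resolve_left hf
  have h2 : hasseDeriv N ω = 1 := by
    have := hasseDeriv_natDegree_eq_C ω
    rw [hdeg, hmon.leadingCoeff] at this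
    rw [this, C_1]
  have h3 : hasseDeriv N φ = C (ω.eval x) * hasseDeriv N P - C (P.eval x) := by
    rw [hφ, map_sub, ← smul_eq_C_mul, ← smul_eq_C_mul, map_smul, map_smul, h2, smul_eq_C_mul,
      smul_eq_C_mul, mul_one]
  rw [h3, eval_sub, eval_mul, eval_C, eval_C, sub_eq_zero] at h1
  rw [← h1, abs_mul]
  refine mul_le_mul_of_nonneg_right ?_ (abs_nonneg _)
  rw [heval, Finset.abs_prod]
  refine (Finset.prod_le_prod (fun _ _ => abs_nonneg _) (g := fun _ => b - a) ?_).trans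
    (by rw [Finset.prod_const])
  intro z hz
  rw [abs_le]
  have := (hZ z hz).1
  constructor <;> linarith [hx.1, hx.2, this.1, this.2]

variable {S : Finset (ℕ × ℕ)} {n : ℕ}

lemma hasse_spoly (e : S → ℕ) (f : S → ℝ) (N : ℕ) (ξ : ℝ) :
    (hasseDeriv N (spoly S e f)).eval ξ =
      ∑ m : S, ((e m).choose N : ℝ) * f m * ξ ^ (e m - N) := by
  unfold spoly
  rw [map_sum, eval_finsetSum]
  refine Finset.sum_congr rfl fun m _ => ?_
  rw [hasseDeriv_monomial, eval_monomial]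

/-- a polynomial with `N` zeros in a short interval is at most `2 ^ (-N)` -/
lemma small {a b : ℝ} (hn : 1 ≤ n) (e : S → ℕ) (he : ∀ m, e m ≤ n) (f : S → ℝ)
    (hab : ∀ ξ ∈ Icc a b, |ξ| + 2 * (b - a) ≤ 1 + 1 / n) {Z : Finset ℝ}
    (hZ : ∀ z ∈ Z, z ∈ Icc a b ∧ (spoly S e f).eval z = 0) {x : ℝ} (hx : x ∈ Icc a b) :
    2 ^ Z.card * |(spoly S e f).eval x| ≤ 3 * ∑ m, |f m| := by
  obtain ⟨ξ, hξ, h1⟩ := interp _ hZ hx
  have hδ : 0 ≤ b - a := by linarith [hx.1, hx.2]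
  set N := Z.card with hN
  rw [hasse_spoly] at h1
  have h2 : ∀ m : S, (2 * (b - a)) ^ N * (((e m).choose N : ℝ) * |ξ| ^ (e m - N)) ≤ 3 := by
    intro m
    rcases lt_or_ge (e m) N with h | h
    · rw [Nat.choose_eq_zero_of_lt h]
      simp
    · have h3 : (2 * (b - a)) ^ N * (((e m).choose N : ℝ) * |ξ| ^ (e m - N)) ≤
          (2 * (b - a) + |ξ|) ^ e m := by
        rw [add_pow]
        have h4 := Finset.single_le_sum (f := fun k => (2 * (b - a)) ^ k * |ξ| ^ (e m - k) *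
          ((e m).choose k : ℝ)) (s := Finset.range (e m + 1)) (fun k _ => by positivity)
          (Finset.mem_range.2 (show N < e m + 1 by omega))
        refine le_trans (le_of_eq ?_) h4
        ring
      refine h3.trans ?_
      have h4 := hab ξ hξ
      have hn0 : (0:ℝ) < n := by exact_mod_cast hn
      have h6 : (1:ℝ) ≤ 1 + 1 / n := by
        have : (0:ℝ) ≤ 1 / n := by positivity
        linarith
      calc (2 * (b - a) + |ξ|) ^ e m ≤ (1 + 1 / (n:ℝ)) ^ e m :=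
            pow_le_pow_left₀ (by positivity) (by linarith) _
        _ ≤ (1 + 1 / (n:ℝ)) ^ n := pow_le_pow_right₀ h6 (he m)
        _ ≤ 3 := W960.HR.one_add_inv_pow_le hn
  calc 2 ^ N * |(spoly S e f).eval x|
      ≤ 2 ^ N * ((b - a) ^ N * |∑ m : S, ((e m).choose N : ℝ) * f m * ξ ^ (e m - N)|) := by
        gcongr
    _ ≤ 2 ^ N * ((b - a) ^ N * ∑ m : S, |((e m).choose N : ℝ) * f m * ξ ^ (e m - N)|) := by
        gcongr
        exact Finset.abs_sum_le_sum_abs _ _
    _ = ∑ m : S, |f m| * ((2 * (b - a)) ^ N * (((e m).choose N : ℝ) * |ξ| ^ (e m - N))) := by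
        rw [← mul_assoc, ← mul_pow, Finset.mul_sum]
        refine Finset.sum_congr rfl fun m _ => ?_
        rw [abs_mul, abs_mul, abs_pow, Nat.abs_cast]
        ring
    _ ≤ ∑ m : S, |f m| * 3 := by
        gcongr with m
        exact h2 m
    _ = 3 * ∑ m, |f m| := by rw [← Finset.sum_mul, mul_comm]

/-- iterated derivatives -/
lemma iter_spoly (e : S → ℕ) (f : S → ℝ) (r : ℕ) :
    derivative^[r] (spoly S e f) =
      spoly S (fun m => e m - r) fun m => f m * (e m).descFactorial r := by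
  unfold spoly
  rw [iterate_derivative_sum]
  refine Finset.sum_congr rfl fun m _ => ?_
  rw [← C_mul_X_pow_eq_monomial, iterate_derivative_C_mul, iterate_derivative_X_pow_eq_natCast_mul,
    ← C_mul_X_pow_eq_monomial, C_mul, mul_assoc]
  congr 2

/-- the same for the derivatives -/
lemma small_iter {a b : ℝ} (hn : 1 ≤ n) (e : S → ℕ) (he : ∀ m, e m ≤ n) (f : S → ℝ)
    (hab : ∀ ξ ∈ Icc a b, |ξ| + 2 * (b - a) ≤ 1 + 1 / n) {Z : Finset ℝ}
    (hZ : ∀ z ∈ Z, z ∈ Icc a b ∧ (spoly S e f).eval z = 0) {x : ℝ} (hx : x ∈ Icc a b) (r : ℕ) :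
    2 ^ Z.card * |∑ m : S, f m * (e m).descFactorial r * x ^ (e m - r)| ≤
      2 ^ r * (3 * (n ^ r * ∑ m, |f m|)) := by
  have hn1 : (1:ℝ) ≤ n := by exact_mod_cast hn
  have hf0 : 0 ≤ ∑ m, |f m| := Finset.sum_nonneg fun _ _ => abs_nonneg _
  have hδ : 0 ≤ b - a := by linarith [hx.1, hx.2]
  set g : S → ℝ := fun m => f m * (e m).descFactorial r with hg
  have hgf : ∑ m, |g m| ≤ n ^ r * ∑ m, |f m| := by
    rw [Finset.mul_sum]
    refine Finset.sum_le_sum fun m _ => ?_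
    rw [hg, abs_mul, Nat.abs_cast, mul_comm]
    refine mul_le_mul_of_nonneg_right ?_ (abs_nonneg _)
    have h1 : (e m).descFactorial r ≤ n ^ r :=
      (Nat.descFactorial_le_pow _ _).trans (Nat.pow_le_pow_left (he m) r)
    exact_mod_cast h1
  have hev : (spoly S (fun m => e m - r) g).eval x =
      ∑ m : S, f m * (e m).descFactorial r * x ^ (e m - r) := eval_spoly _ _ _
  rcases lt_or_ge Z.card r with h | h
  · -- few zeros
    have h0 := small hn (fun m => e m - r) (fun m => (Nat.sub_le _ _).trans (he m)) g hab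
      (Z := ∅) (by simp) hx
    rw [Finset.card_empty, pow_zero, one_mul, hev] at h0
    calc 2 ^ Z.card * |∑ m : S, f m * (e m).descFactorial r * x ^ (e m - r)|
        ≤ 2 ^ r * (3 * ∑ m, |g m|) := by
          gcongr
          exact one_le_two
      _ ≤ 2 ^ r * (3 * (n ^ r * ∑ m, |f m|)) := by gcongr
  · obtain ⟨k, hk⟩ := Nat.exists_eq_add_of_le' h
    obtain ⟨Z', hc, hZ'⟩ := rolle_iter r _ hk hZ
    rw [iter_spoly] at hZ'
    have h0 := small hn (fun m => e m - r) (fun m => (Nat.sub_le _ _).trans (he m)) g hab hZ' hx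
    rw [hc, hev] at h0
    rw [hk, pow_add]
    calc 2 ^ k * 2 ^ r * |∑ m : S, f m * (e m).descFactorial r * x ^ (e m - r)|
        = 2 ^ r * (2 ^ k * |∑ m : S, f m * (e m).descFactorial r * x ^ (e m - r)|) := by ring
      _ ≤ 2 ^ r * (3 * ∑ m, |g m|) := by gcongr
      _ ≤ 2 ^ r * (3 * (n ^ r * ∑ m, |f m|)) := by gcongr

end

end Pool.Agent.TH275.KL
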