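import Pool.Agent.W960.KS.A2

/-! Absorption of the weight of the averaging over rotations by four shifts of the centre, for
arbitrary sets of exponents (after the starting file `W960/HS/CB5`, which treats full sets). -/

open Real Set MeasureTheory Topology Filter ProbabilityTheory
open scoped ENNReal

namespace Pool.Agent.TH275.KLS

noncomputable section

open Pool.Agent
open Pool.Agent.W960
open Pool.Agent.W960.HR (gb lintegral_gb lintegral_gb' sn ip iw xx pb pb_eq pb_le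
  continuous_pb continuous_xx xx_nonneg xx_rotc full_circle measurable_Phi)

variable {S : Finset (ℕ × ℕ)}

/-- the size of the centre -/
def nb (b : S → ℝ × ℝ) : ℝ := √(sn b)

lemma nb_nonneg (b : S → ℝ × ℝ) : 0 ≤ nb b := Real.sqrt_nonneg _

lemma pb_nonneg (b c : S → ℝ × ℝ) : 0 ≤ pb b c := by
  rw [pb_eq]
  positivity

lemma pb_shift (b v c : S → ℝ × ℝ) :
    pb (b + v) c = pb b c * rexp (ip c v - ip b v - sn v / 2) := by
  have h1 : sn (b + v) = sn b + 2 * ip b v + sn v := by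
    unfold sn ip H709R2.sq
    rw [Finset.mul_sum, ← Finset.sum_add_distrib, ← Finset.sum_add_distrib]
    refine Finset.sum_congr rfl fun m _ => ?_
    simp only [Pi.add_apply, Prod.fst_add, Prod.snd_add]
    ring
  have h2 : ip c (b + v) = ip c b + ip c v := by
    unfold ip
    rw [← Finset.sum_add_distrib]
    refine Finset.sum_congr rfl fun m _ => ?_
    simp only [Pi.add_apply, Prod.fst_add, Prod.snd_add]
    ring
  rw [pb_eq, pb_eq, h1, h2, mul_assoc, mul_assoc, mul_assoc, ← Real.exp_add, ← Real.exp_add,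
    ← Real.exp_add]
  congr 2
  ring

lemma two_cosh (x : ℝ) : 2 + x ^ 2 / 2 ≤ rexp x + rexp (-x) := by
  rcases le_total 0 x with h | h
  · have h1 := Real.quadratic_le_exp_of_nonneg h
    have h2 := Real.add_one_le_exp (-x)
    linarith
  · have h1 := Real.quadratic_le_exp_of_nonneg (neg_nonneg.2 h)
    have h2 := Real.add_one_le_exp x
    rw [neg_sq] at h1
    linarith

/-- multiplication by the imaginary unit -/
def Jm (b : S → ℝ × ℝ) : S → ℝ × ℝ := fun m => (-(b m).2, (b m).1)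

lemma ip_smul (c b : S → ℝ × ℝ) (t : ℝ) : ip c (t • b) = t * ip c b := by
  unfold ip
  rw [Finset.mul_sum]
  refine Finset.sum_congr rfl fun m _ => ?_
  simp only [Pi.smul_apply, Prod.smul_fst, Prod.smul_snd, smul_eq_mul]
  ring

lemma sn_smul (b : S → ℝ × ℝ) (t : ℝ) : sn (t • b) = t ^ 2 * sn b := by
  unfold sn H709R2.sq
  rw [Finset.mul_sum]
  refine Finset.sum_congr rfl fun m _ => ?_
  simp only [Pi.smul_apply, Prod.smul_fst, Prod.smul_snd, smul_eq_mul]
  ring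

lemma ip_Jm (c b : S → ℝ × ℝ) : ip c (Jm b) = -iw c b := by
  unfold ip iw Jm
  rw [← Finset.sum_neg_distrib]
  refine Finset.sum_congr rfl fun m _ => ?_
  simp only
  ring

lemma iw_self (b : S → ℝ × ℝ) : iw b b = 0 := by
  unfold iw
  refine Finset.sum_eq_zero fun m _ => ?_
  ring

lemma ip_self (b : S → ℝ × ℝ) : ip b b = sn b := by
  unfold ip sn H709R2.sq
  refine Finset.sum_congr rfl fun m _ => ?_
  ring

lemma sn_Jm (b : S → ℝ × ℝ) : sn (Jm b) = sn b := by
  unfold sn Jm H709R2.sq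
  refine Finset.sum_congr rfl fun m _ => ?_
  simp only
  ring

lemma sn_add (b v : S → ℝ × ℝ) : sn (b + v) = sn b + 2 * ip b v + sn v := by
  unfold sn ip H709R2.sq
  rw [Finset.mul_sum, ← Finset.sum_add_distrib, ← Finset.sum_add_distrib]
  refine Finset.sum_congr rfl fun m _ => ?_
  simp only [Pi.add_apply, Prod.fst_add, Prod.snd_add]
  ring

/-- the length of the shifts -/
def ts (b : S → ℝ × ℝ) : ℝ := 1 / (1 + nb b)

/-- the four shifts -/
def sh (b : S → ℝ × ℝ) : Fin 4 → (S → ℝ × ℝ) :=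
  ![ts b • b, (-ts b) • b, ts b • Jm b, (-ts b) • Jm b]

lemma ts_pos (b : S → ℝ × ℝ) : 0 < ts b := by
  have := nb_nonneg b
  unfold ts
  positivity

lemma ts_nb (b : S → ℝ × ℝ) : ts b * nb b ≤ 1 := by
  have := nb_nonneg b
  unfold ts
  rw [one_div, inv_mul_le_iff₀ (by linarith)]
  linarith

lemma nb_sq (b : S → ℝ × ℝ) : nb b ^ 2 = sn b := Real.sq_sqrt (HR.sn_nonneg b)

lemma ts_sn (b : S → ℝ × ℝ) : ts b ^ 2 * sn b ≤ 1 := by
  rw [← nb_sq, ← mul_pow]
  exact pow_le_one₀ (mul_nonneg (ts_pos b).le (nb_nonneg b)) (ts_nb b)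

lemma nb_sh (b : S → ℝ × ℝ) (i : Fin 4) : nb (b + sh b i) ≤ 1 + nb b := by
  have hβ := nb_nonneg b
  have ht := ts_pos b
  have h1 := ts_nb b
  have h2 := ts_sn b
  have h3 := nb_sq b
  have h4 : ts b * sn b ≤ nb b := by rw [← h3]; nlinarith
  have h5 : 0 ≤ ts b * sn b := mul_nonneg ht.le (HR.sn_nonneg b)
  have key : sn (b + sh b i) ≤ (1 + nb b) ^ 2 := by
    rw [sn_add]
    fin_cases i
    · show sn b + 2 * ip b (ts b • b) + sn (ts b • b) ≤ _
      rw [ip_smul, sn_smul, ip_self]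
      nlinarith
    · show sn b + 2 * ip b ((-ts b) • b) + sn ((-ts b) • b) ≤ _
      rw [ip_smul, sn_smul, ip_self, neg_sq]
      nlinarith
    · show sn b + 2 * ip b (ts b • Jm b) + sn (ts b • Jm b) ≤ _
      rw [ip_smul, sn_smul, ip_Jm, iw_self, sn_Jm]
      nlinarith
    · show sn b + 2 * ip b ((-ts b) • Jm b) + sn ((-ts b) • Jm b) ≤ _
      rw [ip_smul, sn_smul, ip_Jm, iw_self, sn_Jm, neg_sq]
      nlinarith
  exact Real.sqrt_le_iff.2 ⟨by linarith, key⟩

lemma sqrt_aux {β A x y : ℝ} (hβ : 0 ≤ β) (hx0 : 0 ≤ x) (hy0 : 0 ≤ y)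
    (hA : A ≤ β ^ 2 + x * (1 + β) + y * (1 + β)) : √(1 + A) ≤ (1 + β) * (1 + (x + y) / 2) := by
  rw [Real.sqrt_le_iff]
  refine ⟨by positivity, ?_⟩
  have h6 : x * (1 + β) ≤ (1 + β) ^ 2 * x := by nlinarith [mul_nonneg hx0 hβ, mul_nonneg (mul_nonneg hx0 hβ) hβ]
  have h7 : y * (1 + β) ≤ (1 + β) ^ 2 * y := by nlinarith [mul_nonneg hy0 hβ, mul_nonneg (mul_nonneg hy0 hβ) hβ]
  have h5 : 1 + A ≤ (1 + β) ^ 2 * (1 + (x + y)) := by
    have h8 : 1 + β ^ 2 ≤ (1 + β) ^ 2 := by nlinarith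
    linarith
  refine h5.trans ?_
  rw [mul_pow]
  refine mul_le_mul_of_nonneg_left ?_ (sq_nonneg _)
  nlinarith [sq_nonneg ((x + y) / 2)]

lemma sum_aux {x y E p q r s : ℝ} (hE : 1 / 2 ≤ E) (c1 : 2 + x ^ 2 / 2 ≤ p + q)
    (c2 : 2 + y ^ 2 / 2 ≤ r + s) : 1 + (x + y) / 2 ≤ p * E + q * E + s * E + r * E := by
  have h1 : 4 + (x ^ 2 + y ^ 2) / 2 ≤ p + q + (s + r) := by linarith
  have h2 : 1 + (x + y) / 2 ≤ 1 / 2 * (4 + (x ^ 2 + y ^ 2) / 2) := by
    nlinarith [sq_nonneg (x - 1), sq_nonneg (y - 1)]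
  have h3 : 0 ≤ 4 + (x ^ 2 + y ^ 2) / 2 := by positivity
  calc 1 + (x + y) / 2 ≤ 1 / 2 * (4 + (x ^ 2 + y ^ 2) / 2) := h2
    _ ≤ E * (p + q + (s + r)) := mul_le_mul hE h1 h3 (by linarith)
    _ = _ := by ring

lemma xx_aux (b c : S → ℝ × ℝ) : xx c b ≤ nb b ^ 2 + ts b * |ip c b - sn b| * (1 + nb b) +
    ts b * |iw c b| * (1 + nb b) := by
  have hβ := nb_nonneg b
  have ht1 : ts b * (1 + nb b) = 1 := by
    unfold ts
    field_simp
  have h1 : xx c b ≤ |ip c b| + |iw c b| := by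
    unfold HR.xx
    rw [Real.sqrt_le_iff]
    refine ⟨by positivity, ?_⟩
    rw [← sq_abs (ip c b), ← sq_abs (iw c b)]
    have := mul_nonneg (abs_nonneg (ip c b)) (abs_nonneg (iw c b))
    nlinarith
  have h2 : |ip c b| ≤ nb b ^ 2 + |ip c b - sn b| := by
    have e : ip c b = sn b + (ip c b - sn b) := by ring
    calc |ip c b| = |sn b + (ip c b - sn b)| := by rw [← e]
      _ ≤ |sn b| + |ip c b - sn b| := abs_add_le _ _
      _ = _ := by rw [abs_of_nonneg (HR.sn_nonneg b), nb_sq]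
  have h3 : ts b * |ip c b - sn b| * (1 + nb b) = |ip c b - sn b| := by
    calc _ = (ts b * (1 + nb b)) * |ip c b - sn b| := by ring
      _ = _ := by rw [ht1, one_mul]
  have h4 : ts b * |iw c b| * (1 + nb b) = |iw c b| := by
    calc _ = (ts b * (1 + nb b)) * |iw c b| := by ring
      _ = _ := by rw [ht1, one_mul]
  rw [h3, h4]
  linarith

lemma pb_sh (b c : S → ℝ × ℝ) :
    pb (b + sh b 0) c = pb b c * (rexp (ts b * (ip c b - sn b)) * rexp (-(ts b ^ 2 * sn b) / 2)) ∧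
    pb (b + sh b 1) c = pb b c * (rexp (-(ts b * (ip c b - sn b))) * rexp (-(ts b ^ 2 * sn b) / 2)) ∧
    pb (b + sh b 2) c = pb b c * (rexp (-(ts b * iw c b)) * rexp (-(ts b ^ 2 * sn b) / 2)) ∧
    pb (b + sh b 3) c = pb b c * (rexp (ts b * iw c b) * rexp (-(ts b ^ 2 * sn b) / 2)) := by
  refine ⟨?_, ?_, ?_, ?_⟩
  · rw [pb_shift, ← Real.exp_add]
    show pb b c * rexp (ip c (ts b • b) - ip b (ts b • b) - sn (ts b • b) / 2) = _
    rw [ip_smul, ip_smul, sn_smul, ip_self]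
    congr 2
    ring
  · rw [pb_shift, ← Real.exp_add]
    show pb b c * rexp (ip c ((-ts b) • b) - ip b ((-ts b) • b) - sn ((-ts b) • b) / 2) = _
    rw [ip_smul, ip_smul, sn_smul, ip_self]
    congr 2
    ring
  · rw [pb_shift, ← Real.exp_add]
    show pb b c * rexp (ip c (ts b • Jm b) - ip b (ts b • Jm b) - sn (ts b • Jm b) / 2) = _
    rw [ip_smul, ip_smul, sn_smul, ip_Jm, ip_Jm, iw_self, sn_Jm]
    congr 2
    ring
  · rw [pb_shift, ← Real.exp_add]
    show pb b c * rexp (ip c ((-ts b) • Jm b) - ip b ((-ts b) • Jm b) - sn ((-ts b) • Jm b) / 2) = _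
    rw [ip_smul, ip_smul, sn_smul, ip_Jm, ip_Jm, iw_self, sn_Jm]
    congr 2
    ring

/-- the weight is absorbed by four shifts of the centre -/
lemma mix (b c : S → ℝ × ℝ) :
    √(1 + xx c b) * pb b c ≤ (1 + nb b) * ∑ i : Fin 4, pb (b + sh b i) c := by
  have hβ := nb_nonneg b
  have ht := ts_pos b
  have hts := ts_sn b
  have hq := pb_nonneg b c
  obtain ⟨e1, e2, e3, e4⟩ := pb_sh b c
  rw [Fin.sum_univ_four, e1, e2, e3, e4]
  have hE : 1 / 2 ≤ rexp (-(ts b ^ 2 * sn b) / 2) := by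
    have h1 := Real.add_one_le_exp (-(ts b ^ 2 * sn b) / 2)
    linarith
  have c1 := two_cosh (ts b * (ip c b - sn b))
  have c2 := two_cosh (ts b * iw c b)
  have hx2 : (ts b * (ip c b - sn b)) ^ 2 = (ts b * |ip c b - sn b|) ^ 2 := by
    rw [mul_pow, mul_pow, sq_abs]
  have hy2 : (ts b * iw c b) ^ 2 = (ts b * |iw c b|) ^ 2 := by rw [mul_pow, mul_pow, sq_abs]
  rw [hx2] at c1
  rw [hy2] at c2
  have hw := sqrt_aux hβ (mul_nonneg ht.le (abs_nonneg (ip c b - sn b)))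
    (mul_nonneg ht.le (abs_nonneg (iw c b))) (xx_aux b c)
  have hsum := sum_aux hE c1 c2
  generalize rexp (-(ts b ^ 2 * sn b) / 2) = E at *
  generalize rexp (ts b * (ip c b - sn b)) = p at *
  generalize rexp (-(ts b * (ip c b - sn b))) = q at *
  generalize rexp (ts b * iw c b) = r at *
  generalize rexp (-(ts b * iw c b)) = s at *
  calc √(1 + xx c b) * pb b c ≤ (1 + nb b) * (1 + (ts b * |ip c b - sn b| + ts b * |iw c b|) / 2) *
        pb b c := mul_le_mul_of_nonneg_right hw hq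
    _ ≤ (1 + nb b) * (p * E + q * E + s * E + r * E) * pb b c :=
        mul_le_mul_of_nonneg_right (mul_le_mul_of_nonneg_left hsum (by linarith)) hq
    _ = _ := by ring

/-- the weighted mean -/
lemma weighted (b : S → ℝ × ℝ) {P : (S → ℝ × ℝ) → ℝ≥0∞} (hP : Measurable P) :
    ∫⁻ c, ENNReal.ofReal √(1 + xx c b) * P c ∂gb b ≤
      ENNReal.ofReal (1 + nb b) * ∑ i : Fin 4, ∫⁻ c, P c ∂gb (b + sh b i) := by
  have hβ := nb_nonneg b
  have hk' : Measurable fun c : S → ℝ × ℝ => ENNReal.ofReal √(1 + xx c b) :=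
    ENNReal.measurable_ofReal.comp ((continuous_const.add (continuous_xx b)).sqrt.measurable)
  have hp : ∀ b : S → ℝ × ℝ, Measurable fun c : S → ℝ × ℝ => ENNReal.ofReal (pb b c) := fun b =>
    ENNReal.measurable_ofReal.comp (continuous_pb b).measurable
  rw [lintegral_gb' b (F := fun c => ENNReal.ofReal √(1 + xx c b) * P c) (hk'.mul hP)]
  have e : ∀ i : Fin 4, ∫⁻ c, P c ∂gb (b + sh b i) =
      ∫⁻ c, ENNReal.ofReal (pb (b + sh b i) c) * P c := fun i => lintegral_gb' _ hP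
  simp_rw [e]
  have hm : ∀ i : Fin 4, Measurable fun c => ENNReal.ofReal (pb (b + sh b i) c) * P c :=
    fun i => (hp _).mul hP
  rw [← lintegral_finsetSum _ fun i _ => hm i,
    ← lintegral_const_mul _ (Finset.measurable_fun_sum _ fun i _ => hm i)]
  refine lintegral_mono fun c => ?_
  have h1 := ENNReal.ofReal_le_ofReal (mix b c)
  rw [ENNReal.ofReal_mul (Real.sqrt_nonneg _), ENNReal.ofReal_mul (by linarith),
    ENNReal.ofReal_sum_of_nonneg fun i _ => pb_nonneg _ _] at h1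
  calc ENNReal.ofReal (pb b c) * (ENNReal.ofReal √(1 + xx c b) * P c) =
        (ENNReal.ofReal √(1 + xx c b) * ENNReal.ofReal (pb b c)) * P c := by ring
    _ ≤ (ENNReal.ofReal (1 + nb b) * ∑ i : Fin 4, ENNReal.ofReal (pb (b + sh b i) c)) * P c := by
        gcongr
    _ = _ := by rw [mul_assoc, Finset.sum_mul]

end

end Pool.Agent.TH275.KLS
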