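import Pool.Agent.TH275.KL.Shift
import Pool.Agent.TH275.KL.Mean
import Pool.Agent.TH275.RF.Laws

/-! Smoothed analysis with a polylogarithmic dependence on the degree. -/

open Real Set MeasureTheory Topology Filter ProbabilityTheory
open scoped ENNReal

namespace Pool.Agent.TH275.KL

noncomputable section

open Pool.Agent
open Pool.Agent.TH275.KLS (nb nb_nonneg sh nb_sh weighted sn_smul)
open Pool.Agent.H709R2 (fld rot rotc rot_fld NP NP_smul g2 measurable_NP)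
open Pool.Agent.W960.HR (Full NZ Phi T mem_T full_T sn sn_nonneg gb GP GP_eq lintegral_gb dens_gb
  mom_gb to_rotations measurable_Phi Mom Dens RotInv NZ_maj dens_g2 mom_g2 rotInv_g2)

variable {S : Finset (ℕ × ℕ)} {n : ℕ}

/-- the integral over the rotations in the mean, for a Gaussian law with centre -/
lemma phi_gbK (hF : Full2 n S) (b : S → ℝ × ℝ) {X : ℝ} (hX : 1 ≤ X) (hb : 1 + nb b ≤ 2 * X) :
    ∫⁻ c, Phi c ∂gb b ≤ ENNReal.ofReal (1351 * 10 ^ 12 * (1 + Real.log (n * X)) ^ 3) *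
      (1 + ∫⁻ c, NZ c ∂gb b) := by
  have hβ := nb_nonneg b
  have hn1 : (1:ℝ) ≤ n := by exact_mod_cast hF.one_le
  have hW : (1:ℝ) ≤ 4 * (1 + √(sn b)) ^ 2 := by
    have : 0 ≤ √(sn b) := Real.sqrt_nonneg _
    nlinarith
  have h1 : ∫⁻ c, Phi c ∂gb b ≤ ENNReal.ofReal (25 * 10 ^ 12 * (1 + Real.log (n * 1 *
      (4 * (1 + √(sn b)) ^ 2))) ^ 3) * (1 + ∫⁻ c, NZ c ∂gb b) :=
    lintegral_phiK hF (fun m : S => g2.map fun v => b m + v) le_rfl hW (dens_gb b) (mom_gb b)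
  set L : ℝ := Real.log (n * X) with hL
  have hnX : 1 ≤ (n:ℝ) * X := one_le_mul_of_one_le_of_one_le hn1 hX
  have hL0 : 0 ≤ L := Real.log_nonneg hnX
  have h2 : 1 + Real.log (n * 1 * (4 * (1 + √(sn b)) ^ 2)) ≤ 378 / 100 * (1 + L) := by
    have h3 : (n:ℝ) * 1 * (4 * (1 + √(sn b)) ^ 2) ≤ 16 * (n * X) ^ 2 := by
      have h4 : (1 + √(sn b)) ^ 2 ≤ (2 * X) ^ 2 := by
        have h5 : 1 + √(sn b) ≤ 2 * X := hb
        have h6 : 0 ≤ √(sn b) := Real.sqrt_nonneg _
        exact pow_le_pow_left₀ (by linarith) h5 2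
      have h5 : (n:ℝ) ≤ n ^ 2 := by nlinarith
      calc (n:ℝ) * 1 * (4 * (1 + √(sn b)) ^ 2) ≤ n * 1 * (4 * (2 * X) ^ 2) := by gcongr
        _ = 16 * (n * X ^ 2) := by ring
        _ ≤ 16 * (n ^ 2 * X ^ 2) := by gcongr
        _ = _ := by ring
    have h4 := Real.log_le_log (by positivity) h3
    have e4 : Real.log (16 * (n * X) ^ 2) = Real.log 16 + 2 * Real.log (n * X) := by
      rw [Real.log_mul (by norm_num) (by positivity), Real.log_pow]
      push_cast
      ring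
    rw [e4] at h4
    have h5 : Real.log 16 ≤ 278 / 100 := by
      have : (16:ℝ) = 2 ^ 4 := by norm_num
      rw [this, Real.log_pow]
      have := Real.log_two_lt_d9
      push_cast
      linarith
    linarith
  refine h1.trans (mul_le_mul_left (ENNReal.ofReal_le_ofReal ?_) _)
  have h0 : 0 ≤ 1 + Real.log (n * 1 * (4 * (1 + √(sn b)) ^ 2)) := by
    have : 0 ≤ Real.log (n * 1 * (4 * (1 + √(sn b)) ^ 2)) := by
      apply Real.log_nonneg
      exact one_le_mul_of_one_le_of_one_le (by rw [mul_one]; exact hn1) hW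
    linarith
  calc 25 * 10 ^ 12 * (1 + Real.log (n * 1 * (4 * (1 + √(sn b)) ^ 2))) ^ 3
      ≤ 25 * 10 ^ 12 * (378 / 100 * (1 + L)) ^ 3 :=
        mul_le_mul_of_nonneg_left (pow_le_pow_left₀ h0 h2 3) (by norm_num)
    _ = 25 * 10 ^ 12 * (378 / 100) ^ 3 * (1 + L) ^ 3 := by ring
    _ ≤ 1351 * 10 ^ 12 * (1 + L) ^ 3 :=
        mul_le_mul_of_nonneg_right (by norm_num) (by positivity)

/-- the mean for any centre -/
theorem centredK (hF : Full2 n S) (b : S → ℝ × ℝ) {q : ℝ} (hq : 0 ≤ q)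
    (hNZ : ∀ b' : S → ℝ × ℝ, nb b' ≤ 1 + nb b → ∫⁻ c, NZ c ∂gb b' ≤ ENNReal.ofReal q) :
    ∫⁻ c, NP c ∂gb b ≤ ENNReal.ofReal (22 * 10 ^ 15 * (1 + nb b) *
      (1 + Real.log (n * (1 + nb b))) ^ 3 * (1 + q)) := by
  have hβ := nb_nonneg b
  have hn1 : (1:ℝ) ≤ n := by exact_mod_cast hF.one_le
  set X : ℝ := 1 + nb b with hX
  have hX1 : 1 ≤ X := by linarith
  refine (to_rotations b).trans ?_
  have h2 := weighted b (P := Phi) measurable_Phi
  rw [← hX] at h2
  have hL0 : 0 ≤ Real.log (n * X) := Real.log_nonneg (one_le_mul_of_one_le_of_one_le hn1 hX1)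
  set A : ℝ := 1351 * 10 ^ 12 * (1 + Real.log (n * X)) ^ 3 with hA
  have hA0 : 0 ≤ A := by positivity
  have h3 : ∀ i : Fin 4, ∫⁻ c, Phi c ∂gb (b + sh b i) ≤ ENNReal.ofReal (A * (1 + q)) := by
    intro i
    have h4 := nb_sh b i
    refine (phi_gbK hF (b + sh b i) hX1 (by rw [← hX] at h4; linarith)).trans ?_
    rw [ENNReal.ofReal_mul hA0, ENNReal.ofReal_add (by norm_num) hq, ENNReal.ofReal_one]
    exact mul_le_mul_right (add_le_add le_rfl (hNZ _ h4)) _
  calc _ ≤ 4 * (ENNReal.ofReal X * ∑ _i : Fin 4, ENNReal.ofReal (A * (1 + q))) := by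
        refine mul_le_mul_right (h2.trans (mul_le_mul_right (Finset.sum_le_sum fun i _ => h3 i) _)) _
    _ = ENNReal.ofReal 16 * (ENNReal.ofReal X * ENNReal.ofReal (A * (1 + q))) := by
        rw [Finset.sum_const, Finset.card_univ, Fintype.card_fin, nsmul_eq_mul]
        have e16 : ENNReal.ofReal 16 = 4 * 4 := by norm_num
        rw [e16]
        push_cast
        ring
    _ = ENNReal.ofReal (16 * (X * (A * (1 + q)))) := by
        rw [← ENNReal.ofReal_mul (by linarith), ← ENNReal.ofReal_mul (by norm_num)]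
    _ ≤ _ := by
        apply ENNReal.ofReal_le_ofReal
        rw [hA]
        have : 0 ≤ X * ((1 + Real.log (n * X)) ^ 3 * (1 + q)) := by positivity
        nlinarith

lemma scale_centre (c₀ : S → ℝ × ℝ) {σ : ℝ} (hσ : 0 < σ) :
    nb (σ⁻¹ • c₀) = √(sn c₀) / σ ∧
    ∫⁻ g, NP (fun m => c₀ m + σ • g m) ∂GP S = ∫⁻ c, NP c ∂gb (σ⁻¹ • c₀) := by
  constructor
  · unfold nb
    rw [sn_smul, inv_pow, inv_mul_eq_div, Real.sqrt_div' _ (by positivity), Real.sqrt_sq hσ.le]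
  · rw [lintegral_gb (σ⁻¹ • c₀) measurable_NP]
    refine lintegral_congr fun g => ?_
    have h2 : (fun m => c₀ m + σ • g m) = σ • fun m => (σ⁻¹ • c₀) m + g m := by
      funext m
      rw [Pi.smul_apply, smul_add, Pi.smul_apply, smul_inv_smul₀ hσ.ne']
    rw [h2, NP_smul hσ]

/-- **Smoothed analysis for an arbitrary admissible set of exponents.** -/
theorem smoothedK (hF : Full2 n S) (c₀ : S → ℝ × ℝ) {σ : ℝ} (hσ : 0 < σ) :
    ∫⁻ g, NP (fun m => c₀ m + σ • g m) ∂GP S ≤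
      ENNReal.ofReal (22 * 10 ^ 15 * (1 + √(sn c₀) / σ) *
        (1 + Real.log (n * (1 + √(sn c₀) / σ))) ^ 3 *
        (1 + min ((n:ℝ) ^ 2) (32 * S.card ^ 3 * (1 + √(sn c₀) / σ) ^ 2))) := by
  obtain ⟨h1, h2⟩ := scale_centre c₀ hσ
  rw [h2, ← h1]
  set b := σ⁻¹ • c₀ with hb
  have hβ := nb_nonneg b
  refine centredK hF b (le_min (by positivity) (by positivity)) fun b' hb' => ?_
  have hβ' := nb_nonneg b'
  have hW : (1:ℝ) ≤ 4 * (1 + nb b') ^ 2 := by nlinarith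
  have h3 := RF.lintegral_NZ_min hF.toFull (fun m : S => g2.map fun v => b' m + v) le_rfl hW
    (dens_gb b') (mom_gb b')
  refine h3.trans (ENNReal.ofReal_le_ofReal (min_le_min le_rfl ?_))
  have h4 : (1 + nb b') ^ 2 ≤ (2 * (1 + nb b)) ^ 2 := pow_le_pow_left₀ (by linarith) (by linarith) 2
  have h5 : (0:ℝ) ≤ S.card ^ 3 := by positivity
  calc 2 * 1 * (4 * (1 + nb b') ^ 2) * (S.card:ℝ) ^ 3 ≤
        2 * 1 * (4 * (2 * (1 + nb b)) ^ 2) * (S.card:ℝ) ^ 3 := by gcongr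
    _ = 32 * S.card ^ 3 * (1 + nb b) ^ 2 := by ring

lemma full2_T (hn : 2 ≤ n) : Full2 n (T n) := by
  refine ⟨full_T (by omega), ?_, ?_, ?_, ?_, ?_, ?_⟩ <;>
  · rw [mem_T]
    simp only
    omega

/-- **Smoothed analysis, all monomials of degree at most `n`.** -/
theorem kac_smoothedK (hn : 1 ≤ n) (c₀ : T n → ℝ × ℝ) {σ : ℝ} (hσ : 0 < σ) :
    ∫⁻ g, NP (fun m => c₀ m + σ • g m) ∂GP (T n) ≤
      ENNReal.ofReal (7 * 10 ^ 20 * (1 + √(sn c₀) / σ) *
        (1 + Real.log (n * (1 + √(sn c₀) / σ))) ^ 3 *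
        min ((n:ℝ) ^ 2) ((1 + Real.log n) ^ 2 * (1 + √(sn c₀) / σ) ^ 2)) := by
  have hn1 : (1:ℝ) ≤ n := by exact_mod_cast hn
  have hl : 0 ≤ Real.log n := Real.log_nonneg hn1
  have hs0 : 0 ≤ √(sn c₀) / σ := by positivity
  rcases hn.lt_or_eq with h2n | h1n
  · -- degree at least two
    have hF := full2_T (n := n) h2n
    obtain ⟨h1, h2⟩ := scale_centre c₀ hσ
    rw [h2, ← h1]
    set b := σ⁻¹ • c₀ with hb
    have hβ := nb_nonneg b
    set X : ℝ := 1 + nb b with hX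
    have hX1 : 1 ≤ X := by linarith
    set y : ℝ := 1 + Real.log n with hy
    have hy1 : 1 ≤ y := by linarith
    set m : ℝ := min ((n:ℝ) ^ 2) (y ^ 2 * X ^ 2) with hm
    have hm1 : 1 ≤ m := by
      rw [hm, le_min_iff]
      exact ⟨one_le_pow₀ hn1, one_le_mul_of_one_le_of_one_le (one_le_pow₀ hy1) (one_le_pow₀ hX1)⟩
    have hz : ∀ b' : T n → ℝ × ℝ, nb b' ≤ 1 + nb b → ∫⁻ c, NZ c ∂gb b' ≤
        ENNReal.ofReal (31104 * m) := by
      intro b' hb'
      have hβ' := nb_nonneg b'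
      rcases le_total ((n:ℝ) ^ 2) (y ^ 2 * X ^ 2) with h | h
      · have hW : (1:ℝ) ≤ 4 * (1 + nb b') ^ 2 := by nlinarith
        have h3 := RF.lintegral_NZ_min hF.toFull (fun m : T n => g2.map fun v => b' m + v) le_rfl hW
          (dens_gb b') (mom_gb b')
        refine h3.trans (ENNReal.ofReal_le_ofReal ((min_le_left _ _).trans ?_))
        rw [hm, min_eq_left h]
        have : 0 ≤ (n:ℝ) ^ 2 := sq_nonneg _
        linarith
      · obtain ⟨g, -, hg2, hg3⟩ := W960.KS.NZ_maj_b hn b'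
        refine ((lintegral_mono hg2).trans hg3).trans (ENNReal.ofReal_le_ofReal ?_)
        rw [hm, min_eq_right h]
        have h4 : (1 + nb b') ^ 2 ≤ (2 * X) ^ 2 :=
          pow_le_pow_left₀ (by linarith) (by linarith) 2
        have h5 := mul_le_mul_of_nonneg_left h4 (by positivity : 0 ≤ 7776 * y ^ 2)
        refine h5.trans (le_of_eq ?_)
        ring
    refine (centredK hF b (by positivity) hz).trans (ENNReal.ofReal_le_ofReal ?_)
    rw [← hX]
    have hL0 : 0 ≤ Real.log (n * X) := Real.log_nonneg (one_le_mul_of_one_le_of_one_le hn1 hX1)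
    have h6 : 1 + 31104 * m ≤ 31105 * m := by linarith
    calc 22 * 10 ^ 15 * X * (1 + Real.log (n * X)) ^ 3 * (1 + 31104 * m)
        ≤ 22 * 10 ^ 15 * X * (1 + Real.log (n * X)) ^ 3 * (31105 * m) := by gcongr
      _ = 22 * 10 ^ 15 * 31105 * (X * (1 + Real.log (n * X)) ^ 3 * m) := by ring
      _ ≤ 7 * 10 ^ 20 * (X * (1 + Real.log (n * X)) ^ 3 * m) :=
          mul_le_mul_of_nonneg_right (by norm_num) (by positivity)
      _ = _ := by ring
  · -- degree one
    subst h1n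
    refine (W960.HR.smoothed (full_T le_rfl) c₀ hσ).trans (ENNReal.ofReal_le_ofReal ?_)
    set X : ℝ := 1 + √(sn c₀) / σ with hX
    have hX1 : 1 ≤ X := by linarith
    have hL0 : 0 ≤ Real.log X := Real.log_nonneg hX1
    simp only [Nat.cast_one, one_pow, mul_one, one_mul, Real.log_one, add_zero]
    rw [min_eq_left (one_le_pow₀ hX1), mul_one]
    have h1 : 1 + Real.log X ≤ (1 + Real.log X) ^ 3 := le_self_pow₀ (by linarith) (by norm_num)
    calc 7 * 10 ^ 9 * X * (1 + Real.log X) ≤ 7 * 10 ^ 20 * X * (1 + Real.log X) ^ 3 := by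
          apply mul_le_mul (mul_le_mul_of_nonneg_right (by norm_num) (by linarith)) h1
            (by linarith) (by positivity)

/-- **The Kac ensemble.** -/
theorem kacK (hn : 1 ≤ n) : ∫⁻ c, NP c ∂GP (T n) ≤
    ENNReal.ofReal (4 * 10 ^ 17 * (1 + Real.log n) ^ 5) := by
  have hn1 : (1:ℝ) ≤ n := by exact_mod_cast hn
  have hl : 0 ≤ Real.log n := Real.log_nonneg hn1
  set y : ℝ := 1 + Real.log n with hy
  have hy1 : 1 ≤ y := by linarith
  rcases hn.lt_or_eq with h2n | h1n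
  · have hF := full2_T (n := n) h2n
    rw [GP_eq]
    refine (expectedK hF (fun _ : T n => g2) le_rfl (by norm_num) dens_g2 mom_g2
      rotInv_g2).trans ?_
    obtain ⟨g, hg1, hg2, hg3⟩ := NZ_maj (n := n) hn
    have h1 : ∫⁻ c, NZ c ∂(Measure.pi fun _ : T n => g2) ≤
        ENNReal.ofReal (7776 * y ^ 2) := (lintegral_mono hg2).trans hg3
    have hl2 : 0 ≤ Real.log ((n:ℝ) * 1 * 2) := Real.log_nonneg (by linarith)
    have h4 : 1 + Real.log ((n:ℝ) * 1 * 2) ≤ 17 / 10 * y := by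
      rw [mul_one, Real.log_mul (by positivity) (by norm_num)]
      have : Real.log 2 ≤ 7 / 10 := by linarith [Real.log_two_lt_d9]
      linarith
    refine (mul_le_mul_right (add_le_add le_rfl h1) _).trans ?_
    rw [← ENNReal.ofReal_one, ← ENNReal.ofReal_add (by norm_num) (by positivity),
      ← ENNReal.ofReal_mul (by positivity)]
    apply ENNReal.ofReal_le_ofReal
    calc 10 ^ 13 * (1 + Real.log ((n:ℝ) * 1 * 2)) ^ 3 * (1 + 7776 * y ^ 2)
        ≤ 10 ^ 13 * (17 / 10 * y) ^ 3 * (7777 * y ^ 2) := by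
          have : (1:ℝ) ≤ y ^ 2 := one_le_pow₀ hy1
          gcongr
          linarith
      _ = 10 ^ 13 * (17 / 10) ^ 3 * 7777 * y ^ 5 := by ring
      _ ≤ 4 * 10 ^ 17 * y ^ 5 := mul_le_mul_of_nonneg_right (by norm_num) (by positivity)
  · subst h1n
    refine (W960.HR.kac le_rfl).trans (ENNReal.ofReal_le_ofReal ?_)
    rw [hy]
    simp only [Nat.cast_one, Real.log_one, add_zero, one_pow, mul_one]
    norm_num

end

end Pool.Agent.TH275.KL
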