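import Pool.Agent.TH275.RF.ExpSum
import Pool.Agent.W960.HR.Net

/-! Probability that three components of three linear forms are small. -/

open Set MeasureTheory Topology Filter
open scoped ENNReal

namespace Pool.Agent.TH275.KL

noncomputable section

open Pool.Agent.TH275.RF (ip)
open Pool.Agent.W960.HR (Dens lin continuous_lin lin_update resample)

variable {S : Finset (ℕ × ℕ)}

lemma ip_add (u v w : ℝ × ℝ) : ip u (v + w) = ip u v + ip u w := by
  unfold ip; simp only [Prod.fst_add, Prod.snd_add]; ring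

lemma ip_sub (u v w : ℝ × ℝ) : ip u (v - w) = ip u v - ip u w := by
  unfold ip; simp only [Prod.fst_sub, Prod.snd_sub]; ring

lemma ip_sub_left (u v w : ℝ × ℝ) : ip (u - v) w = ip u w - ip v w := by
  unfold ip; simp only [Prod.fst_sub, Prod.snd_sub]; ring

lemma ip_smul (u v : ℝ × ℝ) (a : ℝ) : ip u (a • v) = a * ip u v := by
  unfold ip; simp only [Prod.smul_fst, Prod.smul_snd, smul_eq_mul]; ring

lemma continuous_ip' (u : ℝ × ℝ) : Continuous (ip u) := by unfold ip; fun_prop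

lemma abs_ip_le (u v : ℝ × ℝ) : |ip u v| ≤ 2 * (‖u‖ * ‖v‖) := by
  unfold ip
  refine (abs_add_le _ _).trans ?_
  rw [abs_mul, abs_mul]
  have h1 : |u.1| * |v.1| ≤ ‖u‖ * ‖v‖ :=
    mul_le_mul (W960.HR.abs_fst_le u) (W960.HR.abs_fst_le v) (abs_nonneg _) (norm_nonneg _)
  have h2 : |u.2| * |v.2| ≤ ‖u‖ * ‖v‖ :=
    mul_le_mul (W960.HR.abs_snd_le u) (W960.HR.abs_snd_le v) (abs_nonneg _) (norm_nonneg _)
  linarith

lemma volume_section {a c ρ : ℝ} (ha : |a| = 1) :
    volume {x : ℝ | |a * x + c| ≤ ρ} = ENNReal.ofReal (2 * ρ) := by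
  have e : {x : ℝ | |a * x + c| ≤ ρ} = Metric.closedBall (-(a * c)) ρ := by
    ext x
    rw [Metric.mem_closedBall, Real.dist_eq, mem_ofPred_eq]
    have h1 : a * a = 1 := by
      rw [← abs_mul_abs_self, ha, one_mul]
    have h2 : a * x + c = a * (x - -(a * c)) := by
      linear_combination (-c) * h1
    rw [h2, abs_mul, ha, one_mul]
  rw [e, Real.volume_closedBall]

/-- the area of a truncated strip -/
lemma volume_strip {u : ℝ × ℝ} (hu : |u.1| = 1 ∨ |u.2| = 1) {M ρ : ℝ} (hM : 0 ≤ M) (κ : ℝ) :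
    volume {v : ℝ × ℝ | ‖v‖ ≤ M ∧ |ip u v + κ| ≤ ρ} ≤ ENNReal.ofReal (4 * M * ρ) := by
  have hmeas : MeasurableSet {v : ℝ × ℝ | ‖v‖ ≤ M ∧ |ip u v + κ| ≤ ρ} :=
    ((isClosed_le continuous_norm continuous_const).inter
      (isClosed_le ((continuous_ip' u).add continuous_const).abs continuous_const)).measurableSet
  have hint : ∫⁻ y : ℝ, (Icc (-M) M).indicator (fun _ => ENNReal.ofReal (2 * ρ)) y =
      ENNReal.ofReal (4 * M * ρ) := by
    rw [lintegral_indicator measurableSet_Icc, setLIntegral_const, Real.volume_Icc, mul_comm,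
      ← ENNReal.ofReal_mul (by linarith)]
    congr 1; ring
  rw [Measure.volume_eq_prod]
  rcases hu with hu | hu
  · rw [Measure.prod_apply_symm hmeas, ← hint]
    refine lintegral_mono fun y => ?_
    by_cases hy : y ∈ Icc (-M) M
    · rw [indicator_of_mem hy, ← volume_section (c := u.2 * y + κ) hu]
      refine measure_mono ?_
      rintro x ⟨-, hx⟩
      simp only [ip] at hx
      rw [mem_ofPred_eq, ← add_assoc]
      exact hx
    · rw [indicator_of_notMem hy]
      refine le_of_eq ?_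
      convert measure_empty (μ := (volume : Measure ℝ))
      rw [eq_empty_iff_forall_notMem]
      rintro x ⟨hx, -⟩
      apply hy
      have h1 := (W960.HR.abs_snd_le ((x, y) : ℝ × ℝ)).trans hx
      exact abs_le.1 h1
  · rw [Measure.prod_apply hmeas, ← hint]
    refine lintegral_mono fun y => ?_
    by_cases hy : y ∈ Icc (-M) M
    · rw [indicator_of_mem hy, ← volume_section (c := u.1 * y + κ) hu]
      refine measure_mono ?_
      rintro x ⟨-, hx⟩
      simp only [ip] at hx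
      rw [mem_ofPred_eq]
      rw [show u.2 * x + (u.1 * y + κ) = u.1 * y + u.2 * x + κ by ring]
      exact hx
    · rw [indicator_of_notMem hy]
      refine le_of_eq ?_
      convert measure_empty (μ := (volume : Measure ℝ))
      rw [eq_empty_iff_forall_notMem]
      rintro x ⟨hx, -⟩
      apply hy
      have h1 := (W960.HR.abs_fst_le ((y, x) : ℝ × ℝ)).trans hx
      exact abs_le.1 h1

/-- the event -/
def Ev (u : ℝ × ℝ) (w : S → ℝ) (m : S) (M ρ : ℝ) : Set (S → ℝ × ℝ) :=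
  {c | ‖c m‖ ≤ M ∧ |ip u (lin w c)| ≤ ρ}

lemma measurableSet_Ev (u : ℝ × ℝ) (w : S → ℝ) (m : S) (M ρ : ℝ) :
    MeasurableSet (Ev u w m M ρ) := by
  have h1 : IsClosed {c : S → ℝ × ℝ | ‖c m‖ ≤ M} :=
    isClosed_le (continuous_apply m).norm continuous_const
  have h2 : IsClosed {c : S → ℝ × ℝ | |ip u (lin w c)| ≤ ρ} :=
    isClosed_le ((continuous_ip' u).comp (continuous_lin w)).abs continuous_const
  exact (h1.inter h2).measurableSet

/-- one coordinate -/
lemma prob_step (μ : S → Measure (ℝ × ℝ)) [∀ m, IsProbabilityMeasure (μ m)] {D : ℝ}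
    (hD0 : 0 ≤ D)
    (hD : Dens μ D) {u : ℝ × ℝ} (hu : |u.1| = 1 ∨ |u.2| = 1) {w : S → ℝ} {m : S} (hw : 1 ≤ |w m|)
    {M ρ : ℝ} (hM : 0 ≤ M) (hρ : 0 ≤ ρ) {Q : Set (S → ℝ × ℝ)} (hQ : MeasurableSet Q)
    (hQm : ∀ c v, Function.update c m v ∈ Q ↔ c ∈ Q) :
    Measure.pi μ (Ev u w m M ρ ∩ Q) ≤ ENNReal.ofReal (D * (4 * M * ρ)) * Measure.pi μ Q := by
  have hmeas := (measurableSet_Ev u w m M ρ).inter hQ
  rw [← lintegral_indicator_one hmeas, resample μ (measurable_one.indicator hmeas) m]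
  have h1 : ∀ c : S → ℝ × ℝ, ∫⁻ v, (Ev u w m M ρ ∩ Q).indicator
      1 (Function.update c m v) ∂μ m ≤
      ENNReal.ofReal (D * (4 * M * ρ)) * Q.indicator 1 c := by
    intro c
    by_cases hc : c ∈ Q
    · rw [indicator_of_mem hc, Pi.one_apply, mul_one]
      set κ : ℝ := ip u (lin w c - w m • c m) / w m with hκ
      have hw0 : w m ≠ 0 := by
        intro h
        rw [h, abs_zero] at hw
        linarith
      have e : ∀ v, (Ev u w m M ρ ∩ Q).indicator (1 : (S → ℝ × ℝ) → ℝ≥0∞) (Function.update c m v) ≤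
          {v : ℝ × ℝ | ‖v‖ ≤ M ∧ |ip u v + κ| ≤ ρ}.indicator 1 v := by
        intro v
        by_cases h : Function.update c m v ∈ Ev u w m M ρ ∩ Q
        · rw [indicator_of_mem h, indicator_of_mem]
          · rfl
          · obtain ⟨⟨h2, h3⟩, -⟩ := h
            rw [Function.update_self] at h2
            rw [lin_update, ip_add, ip_smul] at h3
            refine ⟨h2, ?_⟩
            have h4 : w m * ip u v + ip u (lin w c - w m • c m) = w m * (ip u v + κ) := by
              rw [hκ]; field_simp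
            rw [h4, abs_mul] at h3
            have h5 : 1 * |ip u v + κ| ≤ |w m| * |ip u v + κ| :=
              mul_le_mul_of_nonneg_right hw (abs_nonneg _)
            linarith
        · rw [indicator_of_notMem h]
          exact zero_le
      have hm2 : MeasurableSet {v : ℝ × ℝ | ‖v‖ ≤ M ∧ |ip u v + κ| ≤ ρ} :=
        ((isClosed_le continuous_norm continuous_const).inter
          (isClosed_le ((continuous_ip' u).add continuous_const).abs continuous_const)).measurableSet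
      refine (lintegral_mono e).trans ?_
      rw [lintegral_indicator_one hm2]
      refine (hD m _).trans ?_
      rw [ENNReal.ofReal_mul hD0]
      gcongr
      exact volume_strip hu hM κ
    · rw [indicator_of_notMem hc, mul_zero]
      refine le_of_eq ?_
      rw [← lintegral_zero (μ := μ m)]
      congr 1
      funext v
      rw [indicator_of_notMem]
      rintro ⟨-, h2⟩
      exact hc ((hQm c v).1 h2)
  refine (lintegral_mono h1).trans ?_
  rw [lintegral_const_mul _ (measurable_one.indicator hQ), lintegral_indicator_one hQ]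

lemma Ev_update {u : ℝ × ℝ} {w : S → ℝ} {m m' : S} (hm : m' ≠ m) (hw : w m = 0)
    {M ρ : ℝ} (c : S → ℝ × ℝ) (v : ℝ × ℝ) :
    Function.update c m v ∈ Ev u w m' M ρ ↔ c ∈ Ev u w m' M ρ := by
  unfold Ev
  rw [mem_ofPred_eq, mem_ofPred_eq, Function.update_of_ne hm, lin_update, hw, zero_smul, zero_smul,
    zero_add, sub_zero]

/-- **Three linear forms.** -/
lemma prob_three (μ : S → Measure (ℝ × ℝ)) [∀ m, IsProbabilityMeasure (μ m)] {D : ℝ}
    (hD0 : 0 ≤ D) (hD : Dens μ D) {u : ℝ × ℝ} (hu : |u.1| = 1 ∨ |u.2| = 1) {w₀ w₁ w₂ : S → ℝ}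
    {m₀ m₁ m₂ : S} (h01 : m₁ ≠ m₀) (h02 : m₂ ≠ m₀) (h12 : m₂ ≠ m₁) (hw₀ : 1 ≤ |w₀ m₀|)
    (hw₁ : 1 ≤ |w₁ m₁|) (hw₂ : 1 ≤ |w₂ m₂|) (hw10 : w₁ m₀ = 0) (hw20 : w₂ m₀ = 0)
    (hw21 : w₂ m₁ = 0) {M ρ : ℝ} (hM : 0 ≤ M) (hρ : 0 ≤ ρ) :
    Measure.pi μ {c | (∀ m, ‖c m‖ ≤ M) ∧ |ip u (lin w₀ c)| ≤ ρ ∧ |ip u (lin w₁ c)| ≤ ρ ∧
      |ip u (lin w₂ c)| ≤ ρ} ≤ ENNReal.ofReal ((D * (4 * M * ρ)) ^ 3) := by
  set Q₂ : Set (S → ℝ × ℝ) := Ev u w₂ m₂ M ρ ∩ univ with hQ₂
  set Q₁ : Set (S → ℝ × ℝ) := Ev u w₁ m₁ M ρ ∩ Q₂ with hQ₁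
  have hm2 : MeasurableSet Q₂ := (measurableSet_Ev _ _ _ _ _).inter MeasurableSet.univ
  have hm1 : MeasurableSet Q₁ := (measurableSet_Ev _ _ _ _ _).inter hm2
  have p0 := prob_step μ hD0 hD hu hw₀ hM hρ hm1 (fun c v => by
    rw [hQ₁, hQ₂, mem_inter_iff, mem_inter_iff, mem_inter_iff, mem_inter_iff,
      Ev_update h01 hw10, Ev_update h02 hw20]
    simp)
  have p1 := prob_step μ hD0 hD hu hw₁ hM hρ hm2 (fun c v => by
    rw [hQ₂, mem_inter_iff, mem_inter_iff, Ev_update h12 hw21]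
    simp)
  have p2 := prob_step μ hD0 hD hu hw₂ hM hρ MeasurableSet.univ (fun c v => by simp)
  rw [measure_univ, mul_one] at p2
  have hp : 0 ≤ D * (4 * M * ρ) := by positivity
  refine (measure_mono ?_).trans (p0.trans ((mul_le_mul_right (p1.trans
    (mul_le_mul_right p2 _)) _).trans (le_of_eq ?_)))
  · rintro c ⟨hc, h0, h1, h2⟩
    exact ⟨⟨hc m₀, h0⟩, ⟨hc m₁, h1⟩, ⟨hc m₂, h2⟩, mem_univ _⟩
  · rw [← ENNReal.ofReal_mul hp, ← ENNReal.ofReal_mul hp]
    congr 1; ring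

end

end Pool.Agent.TH275.KL
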